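import Pool.Agent.H81.LU.Base
import Pool.Agent.H81.LU.mmm1D
import Pool.Agent.H81.LU.mmm2D
import Pool.Agent.H81.LU.mpm1D
import Pool.Agent.H81.LU.mpm2D
import Pool.Agent.H81.LU.pmm1D
import Pool.Agent.H81.LU.pmm2D
import Pool.Agent.H81.LU.ppm1D
import Pool.Agent.H81.LU.ppm2D

/-!
# `w = h`, `x = -1`
-/

namespace Pool.Agent.H81.LU

open Pool.Agent.H78.RT
open Pool.Agent.H78.Tie
open Pool.Agent.H78.Tie.TAp
open Pool.Agent.H78.SV
open Pool.Agent.H81.LT (res fnil fcons exK)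
open Pool.Agent.H81.AP (LF dot dot_nil dot_nil' dot_cons AllNn AllNe)

variable {A : TAp} {T : A.Tie} {j r U S a V b : ℤ}

theorem c_mmm1D (d : ST A T (-1)) (hsg : A.sg = -1) (hep : T.ep = -1)
    (h : Pt A (-1) j r U S a V b) (e1 : A.q * (A.w : ℤ) = A.q * A.h) (e2 : A.q * T.x = - A.q) (e3 : 2 * (A.q * A.w : ℤ) + 2 * A.q ≤ NN A)
    (c1 : -(A.q * A.w : ℤ) - A.sg + 2 ≤ U) (c2 : (A.q * A.w : ℤ) - A.q * T.x - A.q * A.h ≤ S)
    (c3 : U + S ≤ 0) : False := by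
  refine goK d (sp := false) (ep := false) hsg hep h.cj h.cr (K := [0, 0, 0, 0, 0, 0, 0, -1])
    ?_ (g := mmm1D_g) (la := mmm1D_q) ?_ ?_ mmm1D_k
  · unfold env
    simp only [dot_cons, dot_nil]
    ring
  · obtain ⟨-, -, k2, k3, k4, k5, k6, k7, k8⟩ := h
    have f := d.facts
    rw [hsg] at *
    unfold mmm1D_g env
    simp only [AllNn, dot_cons, dot_nil]
    refine ⟨?_, ?_, ?_, ?_, ?_, ?_, ?_, ?_, ?_, ?_, ?_, ?_, ?_, ?_, trivial⟩ <;> linarith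
  · unfold mmm1D_q
    repeat' first | exact fnil | refine fcons ?_ ?_
    all_goals (simp only [res, sgv, dot_cons, dot_nil]; ring)

theorem c_mmm2D (d : ST A T (-1)) (hsg : A.sg = -1) (hep : T.ep = -1)
    (h : Pt A (-1) j r U S a V b) (e1 : A.q * (A.w : ℤ) = A.q * A.h) (e2 : A.q * T.x = - A.q) (e3 : 2 * (A.q * A.w : ℤ) + 2 * A.q ≤ NN A)
    (c1 : 2 ≤ U) (c2 : -(A.q * T.x) ≤ S)
    (c3 : U + S ≤ A.q * A.h) : False := by
  refine goK d (sp := false) (ep := false) hsg hep h.cj h.cr (K := [0, 0, 0, 0, 0, 0, 0, -1])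
    ?_ (g := mmm2D_g) (la := mmm2D_q) ?_ ?_ mmm2D_k
  · unfold env
    simp only [dot_cons, dot_nil]
    ring
  · obtain ⟨-, -, k2, k3, k4, k5, k6, k7, k8⟩ := h
    have f := d.facts
    rw [hsg] at *
    unfold mmm2D_g env
    simp only [AllNn, dot_cons, dot_nil]
    refine ⟨?_, ?_, ?_, ?_, ?_, ?_, ?_, ?_, ?_, ?_, ?_, ?_, ?_, ?_, trivial⟩ <;> linarith
  · unfold mmm2D_q
    repeat' first | exact fnil | refine fcons ?_ ?_
    all_goals (simp only [res, sgv, dot_cons, dot_nil]; ring)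

theorem c_mpm1D (d : ST A T (-1)) (hsg : A.sg = 1) (hep : T.ep = -1)
    (h : Pt A (-1) j r U S a V b) (e1 : A.q * (A.w : ℤ) = A.q * A.h) (e2 : A.q * T.x = - A.q) (e3 : 2 * (A.q * A.w : ℤ) + 2 * A.q ≤ NN A)
    (c1 : -(A.q * A.w : ℤ) - A.sg + 2 ≤ U) (c2 : (A.q * A.w : ℤ) - A.q * T.x - A.q * A.h ≤ S)
    (c3 : U + S ≤ 0) : False := by
  refine goK d (sp := true) (ep := false) hsg hep h.cj h.cr (K := [0, 0, 0, 0, 0, 0, 0, -1])
    ?_ (g := mpm1D_g) (la := mpm1D_q) ?_ ?_ mpm1D_k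
  · unfold env
    simp only [dot_cons, dot_nil]
    ring
  · obtain ⟨-, -, k2, k3, k4, k5, k6, k7, k8⟩ := h
    have f := d.facts
    rw [hsg] at *
    unfold mpm1D_g env
    simp only [AllNn, dot_cons, dot_nil]
    refine ⟨?_, ?_, ?_, ?_, ?_, ?_, ?_, ?_, ?_, ?_, ?_, ?_, ?_, ?_, trivial⟩ <;> linarith
  · unfold mpm1D_q
    repeat' first | exact fnil | refine fcons ?_ ?_
    all_goals (simp only [res, sgv, dot_cons, dot_nil]; ring)

theorem c_mpm2D (d : ST A T (-1)) (hsg : A.sg = 1) (hep : T.ep = -1)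
    (h : Pt A (1) j r U S a V b) (e1 : A.q * (A.w : ℤ) = A.q * A.h) (e2 : A.q * T.x = - A.q) (e3 : 2 * (A.q * A.w : ℤ) + 2 * A.q ≤ NN A)
    (c1 : 2 ≤ U) (c2 : -(A.q * T.x) ≤ S)
    (c3 : U + S ≤ A.q * A.h) : False := by
  refine goK d (sp := true) (ep := false) hsg hep h.cj h.cr (K := [0, 0, 0, 0, 0, 0, 0, 1])
    ?_ (g := mpm2D_g) (la := mpm2D_q) ?_ ?_ mpm2D_k
  · unfold env
    simp only [dot_cons, dot_nil]
    ring
  · obtain ⟨-, -, k2, k3, k4, k5, k6, k7, k8⟩ := h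
    have f := d.facts
    rw [hsg] at *
    unfold mpm2D_g env
    simp only [AllNn, dot_cons, dot_nil]
    refine ⟨?_, ?_, ?_, ?_, ?_, ?_, ?_, ?_, ?_, ?_, ?_, ?_, ?_, ?_, trivial⟩ <;> linarith
  · unfold mpm2D_q
    repeat' first | exact fnil | refine fcons ?_ ?_
    all_goals (simp only [res, sgv, dot_cons, dot_nil]; ring)

theorem c_pmm1D (d : ST A T (-1)) (hsg : A.sg = -1) (hep : T.ep = 1)
    (h : Pt A (1) j r U S a V b) (e1 : A.q * (A.w : ℤ) = A.q * A.h) (e2 : A.q * T.x = - A.q) (e3 : 2 * (A.q * A.w : ℤ) + 2 * A.q ≤ NN A)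
    (c1 : 2 ≤ U) (c2 : -(A.q * A.h : ℤ) ≤ S)
    (c3 : U + S ≤ A.q * T.x + A.sg) : False := by
  refine goK d (sp := false) (ep := true) hsg hep h.cj h.cr (K := [0, 0, 0, 0, 0, 0, 0, 1])
    ?_ (g := pmm1D_g) (la := pmm1D_q) ?_ ?_ pmm1D_k
  · unfold env
    simp only [dot_cons, dot_nil]
    ring
  · obtain ⟨-, -, k2, k3, k4, k5, k6, k7, k8⟩ := h
    have f := d.facts
    rw [hsg] at *
    unfold pmm1D_g env
    simp only [AllNn, dot_cons, dot_nil]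
    refine ⟨?_, ?_, ?_, ?_, ?_, ?_, ?_, ?_, ?_, ?_, ?_, ?_, ?_, ?_, trivial⟩ <;> linarith
  · unfold pmm1D_q
    repeat' first | exact fnil | refine fcons ?_ ?_
    all_goals (simp only [res, sgv, dot_cons, dot_nil]; ring)

theorem c_pmm2D (d : ST A T (-1)) (hsg : A.sg = -1) (hep : T.ep = 1)
    (h : Pt A (-1) j r U S a V b) (e1 : A.q * (A.w : ℤ) = A.q * A.h) (e2 : A.q * T.x = - A.q) (e3 : 2 * (A.q * A.w : ℤ) + 2 * A.q ≤ NN A)
    (c1 : (A.q * A.w : ℤ) + A.sg + 2 ≤ U) (c2 : -(A.q * A.w : ℤ) ≤ S)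
    (c3 : U + S ≤ A.q * A.h + A.q * T.x + A.sg) : False := by
  refine goK d (sp := false) (ep := true) hsg hep h.cj h.cr (K := [0, 0, 0, 0, 0, 0, 0, -1])
    ?_ (g := pmm2D_g) (la := pmm2D_q) ?_ ?_ pmm2D_k
  · unfold env
    simp only [dot_cons, dot_nil]
    ring
  · obtain ⟨-, -, k2, k3, k4, k5, k6, k7, k8⟩ := h
    have f := d.facts
    rw [hsg] at *
    unfold pmm2D_g env
    simp only [AllNn, dot_cons, dot_nil]
    refine ⟨?_, ?_, ?_, ?_, ?_, ?_, ?_, ?_, ?_, ?_, ?_, ?_, ?_, ?_, trivial⟩ <;> linarith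
  · unfold pmm2D_q
    repeat' first | exact fnil | refine fcons ?_ ?_
    all_goals (simp only [res, sgv, dot_cons, dot_nil]; ring)

theorem c_ppm1D (d : ST A T (-1)) (hsg : A.sg = 1) (hep : T.ep = 1)
    (h : Pt A (1) j r U S a V b) (e1 : A.q * (A.w : ℤ) = A.q * A.h) (e2 : A.q * T.x = - A.q) (e3 : 2 * (A.q * A.w : ℤ) + 2 * A.q ≤ NN A)
    (c1 : 2 ≤ U) (c2 : -(A.q * A.h : ℤ) ≤ S)
    (c3 : U + S ≤ A.q * T.x + A.sg) : False := by
  refine goK d (sp := true) (ep := true) hsg hep h.cj h.cr (K := [0, 0, 0, 0, 0, 0, 0, 1])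
    ?_ (g := ppm1D_g) (la := ppm1D_q) ?_ ?_ ppm1D_k
  · unfold env
    simp only [dot_cons, dot_nil]
    ring
  · obtain ⟨-, -, k2, k3, k4, k5, k6, k7, k8⟩ := h
    have f := d.facts
    rw [hsg] at *
    unfold ppm1D_g env
    simp only [AllNn, dot_cons, dot_nil]
    refine ⟨?_, ?_, ?_, ?_, ?_, ?_, ?_, ?_, ?_, ?_, ?_, ?_, ?_, ?_, trivial⟩ <;> linarith
  · unfold ppm1D_q
    repeat' first | exact fnil | refine fcons ?_ ?_
    all_goals (simp only [res, sgv, dot_cons, dot_nil]; ring)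

theorem c_ppm2D (d : ST A T (-1)) (hsg : A.sg = 1) (hep : T.ep = 1)
    (h : Pt A (1) j r U S a V b) (e1 : A.q * (A.w : ℤ) = A.q * A.h) (e2 : A.q * T.x = - A.q) (e3 : 2 * (A.q * A.w : ℤ) + 2 * A.q ≤ NN A)
    (c1 : (A.q * A.w : ℤ) + A.sg + 2 ≤ U) (c2 : -(A.q * A.w : ℤ) ≤ S)
    (c3 : U + S ≤ A.q * A.h + A.q * T.x + A.sg) : False := by
  refine goK d (sp := true) (ep := true) hsg hep h.cj h.cr (K := [0, 0, 0, 0, 0, 0, 0, 1])
    ?_ (g := ppm2D_g) (la := ppm2D_q) ?_ ?_ ppm2D_k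
  · unfold env
    simp only [dot_cons, dot_nil]
    ring
  · obtain ⟨-, -, k2, k3, k4, k5, k6, k7, k8⟩ := h
    have f := d.facts
    rw [hsg] at *
    unfold ppm2D_g env
    simp only [AllNn, dot_cons, dot_nil]
    refine ⟨?_, ?_, ?_, ?_, ?_, ?_, ?_, ?_, ?_, ?_, ?_, ?_, ?_, ?_, trivial⟩ <;> linarith
  · unfold ppm2D_q
    repeat' first | exact fnil | refine fcons ?_ ?_
    all_goals (simp only [res, sgv, dot_cons, dot_nil]; ring)

end Pool.Agent.H81.LU
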