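import Pool.Agent.H81.LU.Base
import Pool.Agent.H81.LU.Smm
import Pool.Agent.H81.LU.Smp
import Pool.Agent.H81.LU.Spm
import Pool.Agent.H81.LU.Spp

/-!
# `w = h`, `x = -1`, `p = 2 w + 1`
-/

namespace Pool.Agent.H81.LU

open Pool.Agent.H78.RT
open Pool.Agent.H78.Tie
open Pool.Agent.H78.Tie.TAp
open Pool.Agent.H78.SV
open Pool.Agent.H81.LT (res fnil fcons exK)
open Pool.Agent.H81.AP (LF dot dot_nil dot_nil' dot_cons AllNn AllNe)

variable {A : TAp} {T : A.Tie} {j r U S a V b : ℤ}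

theorem c_mmsoA0 (d : ST A T (-1)) (hsg : A.sg = -1) (hep : T.ep = -1)
    (cj : IsC A j U S a) (e1 : A.q * (A.w : ℤ) = A.q * A.h) (e2 : A.q * T.x = - A.q)
    (e3 : NN A = 2 * (A.q * A.w) + A.q) (e4 : A.q * (A.w : ℤ) + 1 ≤ A.D)
    (c1 : 2 * a = th A T.t) (c2 : 2 * U = T.ep * (A.q * A.w + A.sg))
    (c3 : 2 * S = -(T.ep * (A.q * A.w + A.q))) : False := by
  refine goS d (sp := false) (ep := false) hsg hep cj (g := mmsoA0_g) (la := mmsoA0_q) ?_ ?_ mmsoA0_k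
  · have f := d.facts
    rw [hsg, hep] at *
    unfold mmsoA0_g env
    simp only [AllNn, dot_cons, dot_nil]
    refine ⟨?_, ?_, ?_, ?_, ?_, ?_, ?_, ?_, ?_, ?_, trivial⟩ <;> linarith
  · unfold mmsoA0_q
    repeat' first | exact fnil | refine fcons ?_ ?_
    all_goals (simp only [resS, sgv, dot_cons, dot_nil]; ring)

theorem c_mmsoA1 (d : ST A T (-1)) (hsg : A.sg = -1) (hep : T.ep = -1)
    (cj : IsC A j U S a) (e1 : A.q * (A.w : ℤ) = A.q * A.h) (e2 : A.q * T.x = - A.q)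
    (e3 : NN A = 2 * (A.q * A.w) + A.q) (e4 : A.q * (A.w : ℤ) + 1 ≤ A.D)
    (c1 : 2 * a = th A T.t) (c2 : 2 * U = T.ep * (A.q * A.w + A.sg) + NN A)
    (c3 : 2 * S = -(T.ep * (A.q * A.w + A.q))) : False := by
  refine goS d (sp := false) (ep := false) hsg hep cj (g := mmsoA1_g) (la := mmsoA1_q) ?_ ?_ mmsoA1_k
  · have f := d.facts
    rw [hsg, hep] at *
    unfold mmsoA1_g env
    simp only [AllNn, dot_cons, dot_nil]
    refine ⟨?_, ?_, ?_, ?_, ?_, ?_, ?_, ?_, ?_, ?_, trivial⟩ <;> linarith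
  · unfold mmsoA1_q
    repeat' first | exact fnil | refine fcons ?_ ?_
    all_goals (simp only [resS, sgv, dot_cons, dot_nil]; ring)

theorem c_mmsoB0 (d : ST A T (-1)) (hsg : A.sg = -1) (hep : T.ep = -1)
    (cj : IsC A j U S a) (e1 : A.q * (A.w : ℤ) = A.q * A.h) (e2 : A.q * T.x = - A.q)
    (e3 : NN A = 2 * (A.q * A.w) + A.q) (e4 : A.q * (A.w : ℤ) + 1 ≤ A.D)
    (c1 : 2 * a = th A T.t + A.D) (c2 : 2 * U = T.ep * (A.q * A.w + A.sg) + A.D)
    (c3 : 2 * S = -(T.ep * (A.q * A.w + A.q))) : False := by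
  refine goS d (sp := false) (ep := false) hsg hep cj (g := mmsoB0_g) (la := mmsoB0_q) ?_ ?_ mmsoB0_k
  · have f := d.facts
    rw [hsg, hep] at *
    unfold mmsoB0_g env
    simp only [AllNn, dot_cons, dot_nil]
    refine ⟨?_, ?_, ?_, ?_, ?_, ?_, ?_, ?_, ?_, ?_, trivial⟩ <;> linarith
  · unfold mmsoB0_q
    repeat' first | exact fnil | refine fcons ?_ ?_
    all_goals (simp only [resS, sgv, dot_cons, dot_nil]; ring)

theorem c_mmsoB1 (d : ST A T (-1)) (hsg : A.sg = -1) (hep : T.ep = -1)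
    (cj : IsC A j U S a) (e1 : A.q * (A.w : ℤ) = A.q * A.h) (e2 : A.q * T.x = - A.q)
    (e3 : NN A = 2 * (A.q * A.w) + A.q) (e4 : A.q * (A.w : ℤ) + 1 ≤ A.D)
    (c1 : 2 * a = th A T.t + A.D) (c2 : 2 * U = T.ep * (A.q * A.w + A.sg) + A.D + NN A)
    (c3 : 2 * S = -(T.ep * (A.q * A.w + A.q))) : False := by
  refine goS d (sp := false) (ep := false) hsg hep cj (g := mmsoB1_g) (la := mmsoB1_q) ?_ ?_ mmsoB1_k
  · have f := d.facts
    rw [hsg, hep] at *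
    unfold mmsoB1_g env
    simp only [AllNn, dot_cons, dot_nil]
    refine ⟨?_, ?_, ?_, ?_, ?_, ?_, ?_, ?_, ?_, ?_, trivial⟩ <;> linarith
  · unfold mmsoB1_q
    repeat' first | exact fnil | refine fcons ?_ ?_
    all_goals (simp only [resS, sgv, dot_cons, dot_nil]; ring)

theorem c_mmseA0 (d : ST A T (-1)) (hsg : A.sg = -1) (hep : T.ep = -1)
    (cj : IsC A j U S a) (e1 : A.q * (A.w : ℤ) = A.q * A.h) (e2 : A.q * T.x = - A.q)
    (e3 : NN A = 2 * (A.q * A.w) + A.q) (e4 : A.q * (A.w : ℤ) + 1 ≤ A.D)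
    (c1 : 2 * a = th A T.t) (c2 : 2 * U = T.ep * (A.q * A.w + A.sg))
    (c3 : 2 * S = T.ep * (A.q * A.w)) : False := by
  refine goS d (sp := false) (ep := false) hsg hep cj (g := mmseA0_g) (la := mmseA0_q) ?_ ?_ mmseA0_k
  · have f := d.facts
    rw [hsg, hep] at *
    unfold mmseA0_g env
    simp only [AllNn, dot_cons, dot_nil]
    refine ⟨?_, ?_, ?_, ?_, ?_, ?_, ?_, ?_, ?_, ?_, trivial⟩ <;> linarith
  · unfold mmseA0_q
    repeat' first | exact fnil | refine fcons ?_ ?_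
    all_goals (simp only [resS, sgv, dot_cons, dot_nil]; ring)

theorem c_mmseA1 (d : ST A T (-1)) (hsg : A.sg = -1) (hep : T.ep = -1)
    (cj : IsC A j U S a) (e1 : A.q * (A.w : ℤ) = A.q * A.h) (e2 : A.q * T.x = - A.q)
    (e3 : NN A = 2 * (A.q * A.w) + A.q) (e4 : A.q * (A.w : ℤ) + 1 ≤ A.D)
    (c1 : 2 * a = th A T.t) (c2 : 2 * U = T.ep * (A.q * A.w + A.sg) + NN A)
    (c3 : 2 * S = T.ep * (A.q * A.w)) : False := by
  refine goS d (sp := false) (ep := false) hsg hep cj (g := mmseA1_g) (la := mmseA1_q) ?_ ?_ mmseA1_k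
  · have f := d.facts
    rw [hsg, hep] at *
    unfold mmseA1_g env
    simp only [AllNn, dot_cons, dot_nil]
    refine ⟨?_, ?_, ?_, ?_, ?_, ?_, ?_, ?_, ?_, ?_, trivial⟩ <;> linarith
  · unfold mmseA1_q
    repeat' first | exact fnil | refine fcons ?_ ?_
    all_goals (simp only [resS, sgv, dot_cons, dot_nil]; ring)

theorem c_mmseB0 (d : ST A T (-1)) (hsg : A.sg = -1) (hep : T.ep = -1)
    (cj : IsC A j U S a) (e1 : A.q * (A.w : ℤ) = A.q * A.h) (e2 : A.q * T.x = - A.q)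
    (e3 : NN A = 2 * (A.q * A.w) + A.q) (e4 : A.q * (A.w : ℤ) + 1 ≤ A.D)
    (c1 : 2 * a = th A T.t + A.D) (c2 : 2 * U = T.ep * (A.q * A.w + A.sg) + A.D)
    (c3 : 2 * S = T.ep * (A.q * A.w)) : False := by
  refine goS d (sp := false) (ep := false) hsg hep cj (g := mmseB0_g) (la := mmseB0_q) ?_ ?_ mmseB0_k
  · have f := d.facts
    rw [hsg, hep] at *
    unfold mmseB0_g env
    simp only [AllNn, dot_cons, dot_nil]
    refine ⟨?_, ?_, ?_, ?_, ?_, ?_, ?_, ?_, ?_, ?_, trivial⟩ <;> linarith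
  · unfold mmseB0_q
    repeat' first | exact fnil | refine fcons ?_ ?_
    all_goals (simp only [resS, sgv, dot_cons, dot_nil]; ring)

theorem c_mmseB1 (d : ST A T (-1)) (hsg : A.sg = -1) (hep : T.ep = -1)
    (cj : IsC A j U S a) (e1 : A.q * (A.w : ℤ) = A.q * A.h) (e2 : A.q * T.x = - A.q)
    (e3 : NN A = 2 * (A.q * A.w) + A.q) (e4 : A.q * (A.w : ℤ) + 1 ≤ A.D)
    (c1 : 2 * a = th A T.t + A.D) (c2 : 2 * U = T.ep * (A.q * A.w + A.sg) + A.D + NN A)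
    (c3 : 2 * S = T.ep * (A.q * A.w)) : False := by
  refine goS d (sp := false) (ep := false) hsg hep cj (g := mmseB1_g) (la := mmseB1_q) ?_ ?_ mmseB1_k
  · have f := d.facts
    rw [hsg, hep] at *
    unfold mmseB1_g env
    simp only [AllNn, dot_cons, dot_nil]
    refine ⟨?_, ?_, ?_, ?_, ?_, ?_, ?_, ?_, ?_, ?_, trivial⟩ <;> linarith
  · unfold mmseB1_q
    repeat' first | exact fnil | refine fcons ?_ ?_
    all_goals (simp only [resS, sgv, dot_cons, dot_nil]; ring)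

theorem c_mpsoA0 (d : ST A T (-1)) (hsg : A.sg = 1) (hep : T.ep = -1)
    (cj : IsC A j U S a) (e1 : A.q * (A.w : ℤ) = A.q * A.h) (e2 : A.q * T.x = - A.q)
    (e3 : NN A = 2 * (A.q * A.w) + A.q) (e4 : A.q * (A.w : ℤ) + 1 ≤ A.D)
    (c1 : 2 * a = th A T.t) (c2 : 2 * U = T.ep * (A.q * A.w + A.sg))
    (c3 : 2 * S = -(T.ep * (A.q * A.w + A.q))) : False := by
  refine goS d (sp := true) (ep := false) hsg hep cj (g := mpsoA0_g) (la := mpsoA0_q) ?_ ?_ mpsoA0_k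
  · have f := d.facts
    rw [hsg, hep] at *
    unfold mpsoA0_g env
    simp only [AllNn, dot_cons, dot_nil]
    refine ⟨?_, ?_, ?_, ?_, ?_, ?_, ?_, ?_, ?_, ?_, trivial⟩ <;> linarith
  · unfold mpsoA0_q
    repeat' first | exact fnil | refine fcons ?_ ?_
    all_goals (simp only [resS, sgv, dot_cons, dot_nil]; ring)

theorem c_mpsoA1 (d : ST A T (-1)) (hsg : A.sg = 1) (hep : T.ep = -1)
    (cj : IsC A j U S a) (e1 : A.q * (A.w : ℤ) = A.q * A.h) (e2 : A.q * T.x = - A.q)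
    (e3 : NN A = 2 * (A.q * A.w) + A.q) (e4 : A.q * (A.w : ℤ) + 1 ≤ A.D)
    (c1 : 2 * a = th A T.t) (c2 : 2 * U = T.ep * (A.q * A.w + A.sg) + NN A)
    (c3 : 2 * S = -(T.ep * (A.q * A.w + A.q))) : False := by
  refine goS d (sp := true) (ep := false) hsg hep cj (g := mpsoA1_g) (la := mpsoA1_q) ?_ ?_ mpsoA1_k
  · have f := d.facts
    rw [hsg, hep] at *
    unfold mpsoA1_g env
    simp only [AllNn, dot_cons, dot_nil]
    refine ⟨?_, ?_, ?_, ?_, ?_, ?_, ?_, ?_, ?_, ?_, trivial⟩ <;> linarith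
  · unfold mpsoA1_q
    repeat' first | exact fnil | refine fcons ?_ ?_
    all_goals (simp only [resS, sgv, dot_cons, dot_nil]; ring)

theorem c_mpsoB0 (d : ST A T (-1)) (hsg : A.sg = 1) (hep : T.ep = -1)
    (cj : IsC A j U S a) (e1 : A.q * (A.w : ℤ) = A.q * A.h) (e2 : A.q * T.x = - A.q)
    (e3 : NN A = 2 * (A.q * A.w) + A.q) (e4 : A.q * (A.w : ℤ) + 1 ≤ A.D)
    (c1 : 2 * a = th A T.t + A.D) (c2 : 2 * U = T.ep * (A.q * A.w + A.sg) + A.D)
    (c3 : 2 * S = -(T.ep * (A.q * A.w + A.q))) : False := by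
  refine goS d (sp := true) (ep := false) hsg hep cj (g := mpsoB0_g) (la := mpsoB0_q) ?_ ?_ mpsoB0_k
  · have f := d.facts
    rw [hsg, hep] at *
    unfold mpsoB0_g env
    simp only [AllNn, dot_cons, dot_nil]
    refine ⟨?_, ?_, ?_, ?_, ?_, ?_, ?_, ?_, ?_, ?_, trivial⟩ <;> linarith
  · unfold mpsoB0_q
    repeat' first | exact fnil | refine fcons ?_ ?_
    all_goals (simp only [resS, sgv, dot_cons, dot_nil]; ring)

theorem c_mpsoB1 (d : ST A T (-1)) (hsg : A.sg = 1) (hep : T.ep = -1)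
    (cj : IsC A j U S a) (e1 : A.q * (A.w : ℤ) = A.q * A.h) (e2 : A.q * T.x = - A.q)
    (e3 : NN A = 2 * (A.q * A.w) + A.q) (e4 : A.q * (A.w : ℤ) + 1 ≤ A.D)
    (c1 : 2 * a = th A T.t + A.D) (c2 : 2 * U = T.ep * (A.q * A.w + A.sg) + A.D + NN A)
    (c3 : 2 * S = -(T.ep * (A.q * A.w + A.q))) : False := by
  refine goS d (sp := true) (ep := false) hsg hep cj (g := mpsoB1_g) (la := mpsoB1_q) ?_ ?_ mpsoB1_k
  · have f := d.facts
    rw [hsg, hep] at *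
    unfold mpsoB1_g env
    simp only [AllNn, dot_cons, dot_nil]
    refine ⟨?_, ?_, ?_, ?_, ?_, ?_, ?_, ?_, ?_, ?_, trivial⟩ <;> linarith
  · unfold mpsoB1_q
    repeat' first | exact fnil | refine fcons ?_ ?_
    all_goals (simp only [resS, sgv, dot_cons, dot_nil]; ring)

theorem c_mpseA0 (d : ST A T (-1)) (hsg : A.sg = 1) (hep : T.ep = -1)
    (cj : IsC A j U S a) (e1 : A.q * (A.w : ℤ) = A.q * A.h) (e2 : A.q * T.x = - A.q)
    (e3 : NN A = 2 * (A.q * A.w) + A.q) (e4 : A.q * (A.w : ℤ) + 1 ≤ A.D)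
    (c1 : 2 * a = th A T.t) (c2 : 2 * U = T.ep * (A.q * A.w + A.sg))
    (c3 : 2 * S = T.ep * (A.q * A.w)) : False := by
  refine goS d (sp := true) (ep := false) hsg hep cj (g := mpseA0_g) (la := mpseA0_q) ?_ ?_ mpseA0_k
  · have f := d.facts
    rw [hsg, hep] at *
    unfold mpseA0_g env
    simp only [AllNn, dot_cons, dot_nil]
    refine ⟨?_, ?_, ?_, ?_, ?_, ?_, ?_, ?_, ?_, ?_, trivial⟩ <;> linarith
  · unfold mpseA0_q
    repeat' first | exact fnil | refine fcons ?_ ?_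
    all_goals (simp only [resS, sgv, dot_cons, dot_nil]; ring)

theorem c_mpseA1 (d : ST A T (-1)) (hsg : A.sg = 1) (hep : T.ep = -1)
    (cj : IsC A j U S a) (e1 : A.q * (A.w : ℤ) = A.q * A.h) (e2 : A.q * T.x = - A.q)
    (e3 : NN A = 2 * (A.q * A.w) + A.q) (e4 : A.q * (A.w : ℤ) + 1 ≤ A.D)
    (c1 : 2 * a = th A T.t) (c2 : 2 * U = T.ep * (A.q * A.w + A.sg) + NN A)
    (c3 : 2 * S = T.ep * (A.q * A.w)) : False := by
  refine goS d (sp := true) (ep := false) hsg hep cj (g := mpseA1_g) (la := mpseA1_q) ?_ ?_ mpseA1_k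
  · have f := d.facts
    rw [hsg, hep] at *
    unfold mpseA1_g env
    simp only [AllNn, dot_cons, dot_nil]
    refine ⟨?_, ?_, ?_, ?_, ?_, ?_, ?_, ?_, ?_, ?_, trivial⟩ <;> linarith
  · unfold mpseA1_q
    repeat' first | exact fnil | refine fcons ?_ ?_
    all_goals (simp only [resS, sgv, dot_cons, dot_nil]; ring)

theorem c_mpseB0 (d : ST A T (-1)) (hsg : A.sg = 1) (hep : T.ep = -1)
    (cj : IsC A j U S a) (e1 : A.q * (A.w : ℤ) = A.q * A.h) (e2 : A.q * T.x = - A.q)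
    (e3 : NN A = 2 * (A.q * A.w) + A.q) (e4 : A.q * (A.w : ℤ) + 1 ≤ A.D)
    (c1 : 2 * a = th A T.t + A.D) (c2 : 2 * U = T.ep * (A.q * A.w + A.sg) + A.D)
    (c3 : 2 * S = T.ep * (A.q * A.w)) : False := by
  refine goS d (sp := true) (ep := false) hsg hep cj (g := mpseB0_g) (la := mpseB0_q) ?_ ?_ mpseB0_k
  · have f := d.facts
    rw [hsg, hep] at *
    unfold mpseB0_g env
    simp only [AllNn, dot_cons, dot_nil]
    refine ⟨?_, ?_, ?_, ?_, ?_, ?_, ?_, ?_, ?_, ?_, trivial⟩ <;> linarith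
  · unfold mpseB0_q
    repeat' first | exact fnil | refine fcons ?_ ?_
    all_goals (simp only [resS, sgv, dot_cons, dot_nil]; ring)

theorem c_mpseB1 (d : ST A T (-1)) (hsg : A.sg = 1) (hep : T.ep = -1)
    (cj : IsC A j U S a) (e1 : A.q * (A.w : ℤ) = A.q * A.h) (e2 : A.q * T.x = - A.q)
    (e3 : NN A = 2 * (A.q * A.w) + A.q) (e4 : A.q * (A.w : ℤ) + 1 ≤ A.D)
    (c1 : 2 * a = th A T.t + A.D) (c2 : 2 * U = T.ep * (A.q * A.w + A.sg) + A.D + NN A)
    (c3 : 2 * S = T.ep * (A.q * A.w)) : False := by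
  refine goS d (sp := true) (ep := false) hsg hep cj (g := mpseB1_g) (la := mpseB1_q) ?_ ?_ mpseB1_k
  · have f := d.facts
    rw [hsg, hep] at *
    unfold mpseB1_g env
    simp only [AllNn, dot_cons, dot_nil]
    refine ⟨?_, ?_, ?_, ?_, ?_, ?_, ?_, ?_, ?_, ?_, trivial⟩ <;> linarith
  · unfold mpseB1_q
    repeat' first | exact fnil | refine fcons ?_ ?_
    all_goals (simp only [resS, sgv, dot_cons, dot_nil]; ring)

theorem c_pmsoA0 (d : ST A T (-1)) (hsg : A.sg = -1) (hep : T.ep = 1)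
    (cj : IsC A j U S a) (e1 : A.q * (A.w : ℤ) = A.q * A.h) (e2 : A.q * T.x = - A.q)
    (e3 : NN A = 2 * (A.q * A.w) + A.q) (e4 : A.q * (A.w : ℤ) + 1 ≤ A.D)
    (c1 : 2 * a = th A T.t) (c2 : 2 * U = T.ep * (A.q * A.w + A.sg))
    (c3 : 2 * S = -(T.ep * (A.q * A.w + A.q))) : False := by
  refine goS d (sp := false) (ep := true) hsg hep cj (g := pmsoA0_g) (la := pmsoA0_q) ?_ ?_ pmsoA0_k
  · have f := d.facts
    rw [hsg, hep] at *
    unfold pmsoA0_g env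
    simp only [AllNn, dot_cons, dot_nil]
    refine ⟨?_, ?_, ?_, ?_, ?_, ?_, ?_, ?_, ?_, ?_, trivial⟩ <;> linarith
  · unfold pmsoA0_q
    repeat' first | exact fnil | refine fcons ?_ ?_
    all_goals (simp only [resS, sgv, dot_cons, dot_nil]; ring)

theorem c_pmsoA1 (d : ST A T (-1)) (hsg : A.sg = -1) (hep : T.ep = 1)
    (cj : IsC A j U S a) (e1 : A.q * (A.w : ℤ) = A.q * A.h) (e2 : A.q * T.x = - A.q)
    (e3 : NN A = 2 * (A.q * A.w) + A.q) (e4 : A.q * (A.w : ℤ) + 1 ≤ A.D)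
    (c1 : 2 * a = th A T.t) (c2 : 2 * U = T.ep * (A.q * A.w + A.sg) + NN A)
    (c3 : 2 * S = -(T.ep * (A.q * A.w + A.q))) : False := by
  refine goS d (sp := false) (ep := true) hsg hep cj (g := pmsoA1_g) (la := pmsoA1_q) ?_ ?_ pmsoA1_k
  · have f := d.facts
    rw [hsg, hep] at *
    unfold pmsoA1_g env
    simp only [AllNn, dot_cons, dot_nil]
    refine ⟨?_, ?_, ?_, ?_, ?_, ?_, ?_, ?_, ?_, ?_, trivial⟩ <;> linarith
  · unfold pmsoA1_q
    repeat' first | exact fnil | refine fcons ?_ ?_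
    all_goals (simp only [resS, sgv, dot_cons, dot_nil]; ring)

theorem c_pmsoB0 (d : ST A T (-1)) (hsg : A.sg = -1) (hep : T.ep = 1)
    (cj : IsC A j U S a) (e1 : A.q * (A.w : ℤ) = A.q * A.h) (e2 : A.q * T.x = - A.q)
    (e3 : NN A = 2 * (A.q * A.w) + A.q) (e4 : A.q * (A.w : ℤ) + 1 ≤ A.D)
    (c1 : 2 * a = th A T.t + A.D) (c2 : 2 * U = T.ep * (A.q * A.w + A.sg) + A.D)
    (c3 : 2 * S = -(T.ep * (A.q * A.w + A.q))) : False := by
  refine goS d (sp := false) (ep := true) hsg hep cj (g := pmsoB0_g) (la := pmsoB0_q) ?_ ?_ pmsoB0_k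
  · have f := d.facts
    rw [hsg, hep] at *
    unfold pmsoB0_g env
    simp only [AllNn, dot_cons, dot_nil]
    refine ⟨?_, ?_, ?_, ?_, ?_, ?_, ?_, ?_, ?_, ?_, trivial⟩ <;> linarith
  · unfold pmsoB0_q
    repeat' first | exact fnil | refine fcons ?_ ?_
    all_goals (simp only [resS, sgv, dot_cons, dot_nil]; ring)

theorem c_pmsoB1 (d : ST A T (-1)) (hsg : A.sg = -1) (hep : T.ep = 1)
    (cj : IsC A j U S a) (e1 : A.q * (A.w : ℤ) = A.q * A.h) (e2 : A.q * T.x = - A.q)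
    (e3 : NN A = 2 * (A.q * A.w) + A.q) (e4 : A.q * (A.w : ℤ) + 1 ≤ A.D)
    (c1 : 2 * a = th A T.t + A.D) (c2 : 2 * U = T.ep * (A.q * A.w + A.sg) + A.D + NN A)
    (c3 : 2 * S = -(T.ep * (A.q * A.w + A.q))) : False := by
  refine goS d (sp := false) (ep := true) hsg hep cj (g := pmsoB1_g) (la := pmsoB1_q) ?_ ?_ pmsoB1_k
  · have f := d.facts
    rw [hsg, hep] at *
    unfold pmsoB1_g env
    simp only [AllNn, dot_cons, dot_nil]
    refine ⟨?_, ?_, ?_, ?_, ?_, ?_, ?_, ?_, ?_, ?_, trivial⟩ <;> linarith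
  · unfold pmsoB1_q
    repeat' first | exact fnil | refine fcons ?_ ?_
    all_goals (simp only [resS, sgv, dot_cons, dot_nil]; ring)

theorem c_pmseA0 (d : ST A T (-1)) (hsg : A.sg = -1) (hep : T.ep = 1)
    (cj : IsC A j U S a) (e1 : A.q * (A.w : ℤ) = A.q * A.h) (e2 : A.q * T.x = - A.q)
    (e3 : NN A = 2 * (A.q * A.w) + A.q) (e4 : A.q * (A.w : ℤ) + 1 ≤ A.D)
    (c1 : 2 * a = th A T.t) (c2 : 2 * U = T.ep * (A.q * A.w + A.sg))
    (c3 : 2 * S = T.ep * (A.q * A.w)) : False := by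
  refine goS d (sp := false) (ep := true) hsg hep cj (g := pmseA0_g) (la := pmseA0_q) ?_ ?_ pmseA0_k
  · have f := d.facts
    rw [hsg, hep] at *
    unfold pmseA0_g env
    simp only [AllNn, dot_cons, dot_nil]
    refine ⟨?_, ?_, ?_, ?_, ?_, ?_, ?_, ?_, ?_, ?_, trivial⟩ <;> linarith
  · unfold pmseA0_q
    repeat' first | exact fnil | refine fcons ?_ ?_
    all_goals (simp only [resS, sgv, dot_cons, dot_nil]; ring)

theorem c_pmseA1 (d : ST A T (-1)) (hsg : A.sg = -1) (hep : T.ep = 1)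
    (cj : IsC A j U S a) (e1 : A.q * (A.w : ℤ) = A.q * A.h) (e2 : A.q * T.x = - A.q)
    (e3 : NN A = 2 * (A.q * A.w) + A.q) (e4 : A.q * (A.w : ℤ) + 1 ≤ A.D)
    (c1 : 2 * a = th A T.t) (c2 : 2 * U = T.ep * (A.q * A.w + A.sg) + NN A)
    (c3 : 2 * S = T.ep * (A.q * A.w)) : False := by
  refine goS d (sp := false) (ep := true) hsg hep cj (g := pmseA1_g) (la := pmseA1_q) ?_ ?_ pmseA1_k
  · have f := d.facts
    rw [hsg, hep] at *
    unfold pmseA1_g env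
    simp only [AllNn, dot_cons, dot_nil]
    refine ⟨?_, ?_, ?_, ?_, ?_, ?_, ?_, ?_, ?_, ?_, trivial⟩ <;> linarith
  · unfold pmseA1_q
    repeat' first | exact fnil | refine fcons ?_ ?_
    all_goals (simp only [resS, sgv, dot_cons, dot_nil]; ring)

theorem c_pmseB0 (d : ST A T (-1)) (hsg : A.sg = -1) (hep : T.ep = 1)
    (cj : IsC A j U S a) (e1 : A.q * (A.w : ℤ) = A.q * A.h) (e2 : A.q * T.x = - A.q)
    (e3 : NN A = 2 * (A.q * A.w) + A.q) (e4 : A.q * (A.w : ℤ) + 1 ≤ A.D)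
    (c1 : 2 * a = th A T.t + A.D) (c2 : 2 * U = T.ep * (A.q * A.w + A.sg) + A.D)
    (c3 : 2 * S = T.ep * (A.q * A.w)) : False := by
  refine goS d (sp := false) (ep := true) hsg hep cj (g := pmseB0_g) (la := pmseB0_q) ?_ ?_ pmseB0_k
  · have f := d.facts
    rw [hsg, hep] at *
    unfold pmseB0_g env
    simp only [AllNn, dot_cons, dot_nil]
    refine ⟨?_, ?_, ?_, ?_, ?_, ?_, ?_, ?_, ?_, ?_, trivial⟩ <;> linarith
  · unfold pmseB0_q
    repeat' first | exact fnil | refine fcons ?_ ?_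
    all_goals (simp only [resS, sgv, dot_cons, dot_nil]; ring)

theorem c_pmseB1 (d : ST A T (-1)) (hsg : A.sg = -1) (hep : T.ep = 1)
    (cj : IsC A j U S a) (e1 : A.q * (A.w : ℤ) = A.q * A.h) (e2 : A.q * T.x = - A.q)
    (e3 : NN A = 2 * (A.q * A.w) + A.q) (e4 : A.q * (A.w : ℤ) + 1 ≤ A.D)
    (c1 : 2 * a = th A T.t + A.D) (c2 : 2 * U = T.ep * (A.q * A.w + A.sg) + A.D + NN A)
    (c3 : 2 * S = T.ep * (A.q * A.w)) : False := by
  refine goS d (sp := false) (ep := true) hsg hep cj (g := pmseB1_g) (la := pmseB1_q) ?_ ?_ pmseB1_k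
  · have f := d.facts
    rw [hsg, hep] at *
    unfold pmseB1_g env
    simp only [AllNn, dot_cons, dot_nil]
    refine ⟨?_, ?_, ?_, ?_, ?_, ?_, ?_, ?_, ?_, ?_, trivial⟩ <;> linarith
  · unfold pmseB1_q
    repeat' first | exact fnil | refine fcons ?_ ?_
    all_goals (simp only [resS, sgv, dot_cons, dot_nil]; ring)

theorem c_ppsoA0 (d : ST A T (-1)) (hsg : A.sg = 1) (hep : T.ep = 1)
    (cj : IsC A j U S a) (e1 : A.q * (A.w : ℤ) = A.q * A.h) (e2 : A.q * T.x = - A.q)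
    (e3 : NN A = 2 * (A.q * A.w) + A.q) (e4 : A.q * (A.w : ℤ) + 1 ≤ A.D)
    (c1 : 2 * a = th A T.t) (c2 : 2 * U = T.ep * (A.q * A.w + A.sg))
    (c3 : 2 * S = -(T.ep * (A.q * A.w + A.q))) : False := by
  refine goS d (sp := true) (ep := true) hsg hep cj (g := ppsoA0_g) (la := ppsoA0_q) ?_ ?_ ppsoA0_k
  · have f := d.facts
    rw [hsg, hep] at *
    unfold ppsoA0_g env
    simp only [AllNn, dot_cons, dot_nil]
    refine ⟨?_, ?_, ?_, ?_, ?_, ?_, ?_, ?_, ?_, ?_, trivial⟩ <;> linarith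
  · unfold ppsoA0_q
    repeat' first | exact fnil | refine fcons ?_ ?_
    all_goals (simp only [resS, sgv, dot_cons, dot_nil]; ring)

theorem c_ppsoA1 (d : ST A T (-1)) (hsg : A.sg = 1) (hep : T.ep = 1)
    (cj : IsC A j U S a) (e1 : A.q * (A.w : ℤ) = A.q * A.h) (e2 : A.q * T.x = - A.q)
    (e3 : NN A = 2 * (A.q * A.w) + A.q) (e4 : A.q * (A.w : ℤ) + 1 ≤ A.D)
    (c1 : 2 * a = th A T.t) (c2 : 2 * U = T.ep * (A.q * A.w + A.sg) + NN A)
    (c3 : 2 * S = -(T.ep * (A.q * A.w + A.q))) : False := by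
  refine goS d (sp := true) (ep := true) hsg hep cj (g := ppsoA1_g) (la := ppsoA1_q) ?_ ?_ ppsoA1_k
  · have f := d.facts
    rw [hsg, hep] at *
    unfold ppsoA1_g env
    simp only [AllNn, dot_cons, dot_nil]
    refine ⟨?_, ?_, ?_, ?_, ?_, ?_, ?_, ?_, ?_, ?_, trivial⟩ <;> linarith
  · unfold ppsoA1_q
    repeat' first | exact fnil | refine fcons ?_ ?_
    all_goals (simp only [resS, sgv, dot_cons, dot_nil]; ring)

theorem c_ppsoB0 (d : ST A T (-1)) (hsg : A.sg = 1) (hep : T.ep = 1)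
    (cj : IsC A j U S a) (e1 : A.q * (A.w : ℤ) = A.q * A.h) (e2 : A.q * T.x = - A.q)
    (e3 : NN A = 2 * (A.q * A.w) + A.q) (e4 : A.q * (A.w : ℤ) + 1 ≤ A.D)
    (c1 : 2 * a = th A T.t + A.D) (c2 : 2 * U = T.ep * (A.q * A.w + A.sg) + A.D)
    (c3 : 2 * S = -(T.ep * (A.q * A.w + A.q))) : False := by
  refine goS d (sp := true) (ep := true) hsg hep cj (g := ppsoB0_g) (la := ppsoB0_q) ?_ ?_ ppsoB0_k
  · have f := d.facts
    rw [hsg, hep] at *
    unfold ppsoB0_g env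
    simp only [AllNn, dot_cons, dot_nil]
    refine ⟨?_, ?_, ?_, ?_, ?_, ?_, ?_, ?_, ?_, ?_, trivial⟩ <;> linarith
  · unfold ppsoB0_q
    repeat' first | exact fnil | refine fcons ?_ ?_
    all_goals (simp only [resS, sgv, dot_cons, dot_nil]; ring)

theorem c_ppsoB1 (d : ST A T (-1)) (hsg : A.sg = 1) (hep : T.ep = 1)
    (cj : IsC A j U S a) (e1 : A.q * (A.w : ℤ) = A.q * A.h) (e2 : A.q * T.x = - A.q)
    (e3 : NN A = 2 * (A.q * A.w) + A.q) (e4 : A.q * (A.w : ℤ) + 1 ≤ A.D)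
    (c1 : 2 * a = th A T.t + A.D) (c2 : 2 * U = T.ep * (A.q * A.w + A.sg) + A.D + NN A)
    (c3 : 2 * S = -(T.ep * (A.q * A.w + A.q))) : False := by
  refine goS d (sp := true) (ep := true) hsg hep cj (g := ppsoB1_g) (la := ppsoB1_q) ?_ ?_ ppsoB1_k
  · have f := d.facts
    rw [hsg, hep] at *
    unfold ppsoB1_g env
    simp only [AllNn, dot_cons, dot_nil]
    refine ⟨?_, ?_, ?_, ?_, ?_, ?_, ?_, ?_, ?_, ?_, trivial⟩ <;> linarith
  · unfold ppsoB1_q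
    repeat' first | exact fnil | refine fcons ?_ ?_
    all_goals (simp only [resS, sgv, dot_cons, dot_nil]; ring)

theorem c_ppseA0 (d : ST A T (-1)) (hsg : A.sg = 1) (hep : T.ep = 1)
    (cj : IsC A j U S a) (e1 : A.q * (A.w : ℤ) = A.q * A.h) (e2 : A.q * T.x = - A.q)
    (e3 : NN A = 2 * (A.q * A.w) + A.q) (e4 : A.q * (A.w : ℤ) + 1 ≤ A.D)
    (c1 : 2 * a = th A T.t) (c2 : 2 * U = T.ep * (A.q * A.w + A.sg))
    (c3 : 2 * S = T.ep * (A.q * A.w)) : False := by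
  refine goS d (sp := true) (ep := true) hsg hep cj (g := ppseA0_g) (la := ppseA0_q) ?_ ?_ ppseA0_k
  · have f := d.facts
    rw [hsg, hep] at *
    unfold ppseA0_g env
    simp only [AllNn, dot_cons, dot_nil]
    refine ⟨?_, ?_, ?_, ?_, ?_, ?_, ?_, ?_, ?_, ?_, trivial⟩ <;> linarith
  · unfold ppseA0_q
    repeat' first | exact fnil | refine fcons ?_ ?_
    all_goals (simp only [resS, sgv, dot_cons, dot_nil]; ring)

theorem c_ppseA1 (d : ST A T (-1)) (hsg : A.sg = 1) (hep : T.ep = 1)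
    (cj : IsC A j U S a) (e1 : A.q * (A.w : ℤ) = A.q * A.h) (e2 : A.q * T.x = - A.q)
    (e3 : NN A = 2 * (A.q * A.w) + A.q) (e4 : A.q * (A.w : ℤ) + 1 ≤ A.D)
    (c1 : 2 * a = th A T.t) (c2 : 2 * U = T.ep * (A.q * A.w + A.sg) + NN A)
    (c3 : 2 * S = T.ep * (A.q * A.w)) : False := by
  refine goS d (sp := true) (ep := true) hsg hep cj (g := ppseA1_g) (la := ppseA1_q) ?_ ?_ ppseA1_k
  · have f := d.facts
    rw [hsg, hep] at *
    unfold ppseA1_g env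
    simp only [AllNn, dot_cons, dot_nil]
    refine ⟨?_, ?_, ?_, ?_, ?_, ?_, ?_, ?_, ?_, ?_, trivial⟩ <;> linarith
  · unfold ppseA1_q
    repeat' first | exact fnil | refine fcons ?_ ?_
    all_goals (simp only [resS, sgv, dot_cons, dot_nil]; ring)

theorem c_ppseB0 (d : ST A T (-1)) (hsg : A.sg = 1) (hep : T.ep = 1)
    (cj : IsC A j U S a) (e1 : A.q * (A.w : ℤ) = A.q * A.h) (e2 : A.q * T.x = - A.q)
    (e3 : NN A = 2 * (A.q * A.w) + A.q) (e4 : A.q * (A.w : ℤ) + 1 ≤ A.D)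
    (c1 : 2 * a = th A T.t + A.D) (c2 : 2 * U = T.ep * (A.q * A.w + A.sg) + A.D)
    (c3 : 2 * S = T.ep * (A.q * A.w)) : False := by
  refine goS d (sp := true) (ep := true) hsg hep cj (g := ppseB0_g) (la := ppseB0_q) ?_ ?_ ppseB0_k
  · have f := d.facts
    rw [hsg, hep] at *
    unfold ppseB0_g env
    simp only [AllNn, dot_cons, dot_nil]
    refine ⟨?_, ?_, ?_, ?_, ?_, ?_, ?_, ?_, ?_, ?_, trivial⟩ <;> linarith
  · unfold ppseB0_q
    repeat' first | exact fnil | refine fcons ?_ ?_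
    all_goals (simp only [resS, sgv, dot_cons, dot_nil]; ring)

theorem c_ppseB1 (d : ST A T (-1)) (hsg : A.sg = 1) (hep : T.ep = 1)
    (cj : IsC A j U S a) (e1 : A.q * (A.w : ℤ) = A.q * A.h) (e2 : A.q * T.x = - A.q)
    (e3 : NN A = 2 * (A.q * A.w) + A.q) (e4 : A.q * (A.w : ℤ) + 1 ≤ A.D)
    (c1 : 2 * a = th A T.t + A.D) (c2 : 2 * U = T.ep * (A.q * A.w + A.sg) + A.D + NN A)
    (c3 : 2 * S = T.ep * (A.q * A.w)) : False := by
  refine goS d (sp := true) (ep := true) hsg hep cj (g := ppseB1_g) (la := ppseB1_q) ?_ ?_ ppseB1_k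
  · have f := d.facts
    rw [hsg, hep] at *
    unfold ppseB1_g env
    simp only [AllNn, dot_cons, dot_nil]
    refine ⟨?_, ?_, ?_, ?_, ?_, ?_, ?_, ?_, ?_, ?_, trivial⟩ <;> linarith
  · unfold ppseB1_q
    repeat' first | exact fnil | refine fcons ?_ ?_
    all_goals (simp only [resS, sgv, dot_cons, dot_nil]; ring)

end Pool.Agent.H81.LU
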