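import Pool.Agent.H81.LU.FB
import Pool.Agent.H81.LU.FC
import Pool.Agent.H81.LU.FD
import Pool.Agent.H81.LU.FS

/-!
# Single ties with `w ≤ h`, `w ≤ ⌊d / q⌋`, `h - |x| < w` do not exist
-/

namespace Pool.Agent.H81.LU

open Pool.Agent.H78.RT
open Pool.Agent.H78.Tie
open Pool.Agent.H78.Tie.TAp
open Pool.Agent.H78.SV
open Pool.Agent.H81.LT (exK)

variable {A : TAp} {T : A.Tie} {j r U S a V b : ℤ}

theorem pt (F : A.Fl) {T : A.Tie} (hd : (A.w : ℤ) ≤ A.md) {k : ℤ} (hk : ¬ (A.p : ℤ) ∣ k)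
    (cj : IsC A j U S (th A j)) : ∃ r V, Pt A k j r U S (th A j) V (th A r) := by
  have hq := A.q_pos'
  obtain ⟨r, V, cr, b0, b1, V1, V0⟩ := exK A hk
  refine ⟨r, V, cj, cr, ?_, ?_, ?_, b0, b1, V1, V0⟩
  · have h1 := A.hfd
    have := mul_le_mul_of_nonneg_left hd hq.le
    unfold TAp.D; omega
  · have := th_pos A cj.2.1; omega
  · have := th_ltD A cj.2.2; omega

theorem nd_of_lt {p k : ℤ} (h0 : k ≠ 0) (h : |k| < p) : ¬ p ∣ k := fun h1 =>
  h0 (Int.eq_zero_of_abs_lt_dvd h1 h)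

/-- `w < h` -/
theorem no_lt (F : A.Fl) (T : A.Tie) (hs : T.Single) (ht : T.t ≠ 1) (hx0 : T.x ≠ 0)
    (hx1 : |T.x| < A.h) (hwh : A.w < A.h) (hd : (A.w : ℤ) ≤ A.md)
    (hx : (A.h : ℤ) < A.w + |T.x|) : False := by
  have hq := A.q_pos'
  have hp := A.p_pos'
  obtain ⟨j, U, S, cj, jt, B⟩ := triT F T hx0 hx1 (fun h => by
    rw [abs_of_neg h] at hx; omega)
  have hk : ¬ (A.p : ℤ) ∣ (A.h : ℤ) - A.w := by
    apply nd_of_lt (by omega)
    have h2 := A.h2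
    rw [abs_lt]; omega
  obtain ⟨r, V, h⟩ := pt F (T := T) hd hk cj
  have e1 : A.q * (A.w : ℤ) + A.q ≤ A.q * A.h := by
    have := mul_le_mul_of_nonneg_left (show (A.w : ℤ) + 1 ≤ A.h by omega) hq.le
    rwa [mul_add, mul_one] at this
  have ep : 0 < T.x → A.q * (A.h : ℤ) - A.q * T.x + A.q ≤ A.q * A.w := by
    intro h0
    rw [abs_of_pos h0] at hx
    have := mul_le_mul_of_nonneg_left (show (A.h : ℤ) - T.x + 1 ≤ A.w by omega) hq.le
    rwa [mul_add, mul_one, mul_sub] at this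
  have en : T.x < 0 → A.q * (A.h : ℤ) + A.q * T.x + A.q ≤ A.q * A.w := by
    intro h0
    rw [abs_of_neg h0] at hx
    have := mul_le_mul_of_nonneg_left (show (A.h : ℤ) + T.x + 1 ≤ A.w by omega) hq.le
    rwa [mul_add, mul_one, mul_add] at this
  obtain ⟨B1, B2, B3, B4⟩ := B
  rw [abs_lt] at hx1
  rcases T.hep with he | he <;> rcases lt_or_gt_of_ne hx0 with hx | hx
  · have d : ST A T (-1) := ⟨F, hs, ht, by omega, by omega⟩
    rcases A.hsg with hg | hg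
    · rcases B4 he hx with ⟨c1, c2, c3⟩ | ⟨c1, c2, c3⟩
      · exact c_ppm1B d hg he h e1 (en hx) c1 c2 c3
      · exact c_ppm2B d hg he h e1 (en hx) c1 c2 c3
    · rcases B4 he hx with ⟨c1, c2, c3⟩ | ⟨c1, c2, c3⟩
      · exact c_pmm1B d hg he h e1 (en hx) c1 c2 c3
      · exact c_pmm2B d hg he h e1 (en hx) c1 c2 c3
  · have d : ST A T (1) := ⟨F, hs, ht, by omega, by omega⟩
    rcases A.hsg with hg | hg
    · rcases B3 he hx with ⟨c1, c2, c3⟩ | ⟨c1, c2, c3⟩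
      · exact c_ppp0B d hg he h e1 (ep hx) c1 c2 c3
      · exact c_ppp3B d hg he h e1 (ep hx) c1 c2 c3
    · rcases B3 he hx with ⟨c1, c2, c3⟩ | ⟨c1, c2, c3⟩
      · exact c_pmp0B d hg he h e1 (ep hx) c1 c2 c3
      · exact c_pmp3B d hg he h e1 (ep hx) c1 c2 c3
  · have d : ST A T (-1) := ⟨F, hs, ht, by omega, by omega⟩
    rcases A.hsg with hg | hg
    · rcases B2 he hx with ⟨c1, c2, c3⟩ | ⟨c1, c2, c3⟩
      · exact c_mpm1B d hg he h e1 (en hx) c1 c2 c3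
      · exact c_mpm2B d hg he h e1 (en hx) c1 c2 c3
    · rcases B2 he hx with ⟨c1, c2, c3⟩ | ⟨c1, c2, c3⟩
      · exact c_mmm1B d hg he h e1 (en hx) c1 c2 c3
      · exact c_mmm2B d hg he h e1 (en hx) c1 c2 c3
  · have d : ST A T (1) := ⟨F, hs, ht, by omega, by omega⟩
    rcases A.hsg with hg | hg
    · rcases B1 he hx with ⟨c1, c2, c3⟩ | ⟨c1, c2, c3⟩
      · exact c_mpp0B d hg he h e1 (ep hx) c1 c2 c3
      · exact c_mpp3B d hg he h e1 (ep hx) c1 c2 c3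
    · rcases B1 he hx with ⟨c1, c2, c3⟩ | ⟨c1, c2, c3⟩
      · exact c_mmp0B d hg he h e1 (ep hx) c1 c2 c3
      · exact c_mmp3B d hg he h e1 (ep hx) c1 c2 c3

/-- `w = h` -/
theorem no_eq (F : A.Fl) (T : A.Tie) (hs : T.Single) (ht : T.t ≠ 1) (hx0 : T.x ≠ 0)
    (hx1 : |T.x| < A.h) (hwh : A.w = A.h) (hd : (A.w : ℤ) ≤ A.md) (hx2 : T.x ≠ -1) : False := by
  have hq := A.q_pos'
  have hp := A.p_pos'
  have p4 : (4 : ℤ) ≤ A.p := by have := A.w2; have := A.hw; omega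
  obtain ⟨j, U, S, cj, jt, B⟩ := triT F T hx0 hx1 (fun h => by omega)
  obtain ⟨r, V, h⟩ := pt F (T := T) hd (k := 1) (nd_of_lt (by norm_num) (by rw [abs_one]; omega)) cj
  obtain ⟨r', V', h'⟩ := pt F (T := T) hd (k := -1)
    (nd_of_lt (by norm_num) (by rw [abs_neg, abs_one]; omega)) cj
  have e1 : A.q * (A.w : ℤ) = A.q * A.h := by rw [hwh]
  have e2 : T.x < 0 → A.q * T.x + 2 * A.q ≤ 0 := by
    intro h0
    have := mul_le_mul_of_nonneg_left (show T.x + 2 ≤ 0 by omega) hq.le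
    rw [mul_add, mul_zero] at this
    linarith
  obtain ⟨B1, B2, B3, B4⟩ := B
  rw [abs_lt] at hx1
  rcases T.hep with he | he <;> rcases lt_or_gt_of_ne hx0 with hx | hx
  · have d : ST A T (-1) := ⟨F, hs, ht, by omega, by omega⟩
    rcases A.hsg with hg | hg
    · rcases B4 he hx with ⟨c1, c2, c3⟩ | ⟨c1, c2, c3⟩
      · exact c_ppm1C d hg he h e1 (e2 hx) c1 c2 c3
      · exact c_ppm2C d hg he h' e1 (e2 hx) c1 c2 c3
    · rcases B4 he hx with ⟨c1, c2, c3⟩ | ⟨c1, c2, c3⟩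
      · exact c_pmm1C d hg he h e1 (e2 hx) c1 c2 c3
      · exact c_pmm2C d hg he h' e1 (e2 hx) c1 c2 c3
  · have d : ST A T (1) := ⟨F, hs, ht, by omega, by omega⟩
    rcases A.hsg with hg | hg
    · rcases B3 he hx with ⟨c1, c2, c3⟩ | ⟨c1, c2, c3⟩
      · exact c_ppp0C d hg he h e1 c1 c2 c3
      · exact c_ppp3C d hg he h e1 c1 c2 c3
    · rcases B3 he hx with ⟨c1, c2, c3⟩ | ⟨c1, c2, c3⟩
      · exact c_pmp0C d hg he h e1 c1 c2 c3
      · exact c_pmp3C d hg he h e1 c1 c2 c3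
  · have d : ST A T (-1) := ⟨F, hs, ht, by omega, by omega⟩
    rcases A.hsg with hg | hg
    · rcases B2 he hx with ⟨c1, c2, c3⟩ | ⟨c1, c2, c3⟩
      · exact c_mpm1C d hg he h' e1 (e2 hx) c1 c2 c3
      · exact c_mpm2C d hg he h e1 (e2 hx) c1 c2 c3
    · rcases B2 he hx with ⟨c1, c2, c3⟩ | ⟨c1, c2, c3⟩
      · exact c_mmm1C d hg he h e1 (e2 hx) c1 c2 c3
      · exact c_mmm2C d hg he h e1 (e2 hx) c1 c2 c3
  · have d : ST A T (1) := ⟨F, hs, ht, by omega, by omega⟩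
    rcases A.hsg with hg | hg
    · rcases B1 he hx with ⟨c1, c2, c3⟩ | ⟨c1, c2, c3⟩
      · exact c_mpp0C d hg he h e1 c1 c2 c3
      · exact c_mpp3C d hg he h e1 c1 c2 c3
    · rcases B1 he hx with ⟨c1, c2, c3⟩ | ⟨c1, c2, c3⟩
      · exact c_mmp0C d hg he h' e1 c1 c2 c3
      · exact c_mmp3C d hg he h' e1 c1 c2 c3

/-- `w = h`, `x = -1`, `2 w + 2 ≤ p` -/
theorem no_eq' (F : A.Fl) (T : A.Tie) (hs : T.Single) (ht : T.t ≠ 1)
    (hwh : A.w = A.h) (hd : (A.w : ℤ) ≤ A.md) (hx2 : T.x = -1) (hp2 : 2 * A.w + 2 ≤ A.p) :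
    False := by
  have hq := A.q_pos'
  have hp := A.p_pos'
  have hh := A.hh
  have hx0 : T.x ≠ 0 := by omega
  have hx1 : |T.x| < A.h := by rw [hx2, abs_neg, abs_one]; omega
  have p4 : (4 : ℤ) ≤ A.p := by have := A.w2; have := A.hw; omega
  obtain ⟨j, U, S, cj, jt, B⟩ := triT F T hx0 hx1 (fun h => by omega)
  obtain ⟨r, V, h⟩ := pt F (T := T) hd (k := 1) (nd_of_lt (by norm_num) (by rw [abs_one]; omega)) cj
  obtain ⟨r', V', h'⟩ := pt F (T := T) hd (k := -1)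
    (nd_of_lt (by norm_num) (by rw [abs_neg, abs_one]; omega)) cj
  have e1 : A.q * (A.w : ℤ) = A.q * A.h := by rw [hwh]
  have e2 : A.q * T.x = - A.q := by rw [hx2]; ring
  have e3 : 2 * (A.q * A.w : ℤ) + 2 * A.q ≤ NN A := by
    have := mul_le_mul_of_nonneg_left (show 2 * (A.w : ℤ) + 2 ≤ A.p by omega) hq.le
    unfold NN
    linarith
  obtain ⟨B1, B2, B3, B4⟩ := B
  rw [abs_lt] at hx1
  rcases T.hep with he | he <;> rcases lt_or_gt_of_ne hx0 with hx | hx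
  · have d : ST A T (-1) := ⟨F, hs, ht, by omega, by omega⟩
    rcases A.hsg with hg | hg
    · rcases B4 he hx with ⟨c1, c2, c3⟩ | ⟨c1, c2, c3⟩
      · exact c_ppm1D d hg he h e1 e2 e3 c1 c2 c3
      · exact c_ppm2D d hg he h e1 e2 e3 c1 c2 c3
    · rcases B4 he hx with ⟨c1, c2, c3⟩ | ⟨c1, c2, c3⟩
      · exact c_pmm1D d hg he h e1 e2 e3 c1 c2 c3
      · exact c_pmm2D d hg he h' e1 e2 e3 c1 c2 c3
  · omega
  · have d : ST A T (-1) := ⟨F, hs, ht, by omega, by omega⟩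
    rcases A.hsg with hg | hg
    · rcases B2 he hx with ⟨c1, c2, c3⟩ | ⟨c1, c2, c3⟩
      · exact c_mpm1D d hg he h' e1 e2 e3 c1 c2 c3
      · exact c_mpm2D d hg he h e1 e2 e3 c1 c2 c3
    · rcases B2 he hx with ⟨c1, c2, c3⟩ | ⟨c1, c2, c3⟩
      · exact c_mmm1D d hg he h' e1 e2 e3 c1 c2 c3
      · exact c_mmm2D d hg he h' e1 e2 e3 c1 c2 c3
  · omega

/-- a lift of half of a class -/
theorem half {y : ℤ} (c : IsC A j U S a) (h : NN A ∣ 2 * U - y) :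
    ∃ U', IsC A j U' S a ∧ (2 * U' = y ∨ 2 * U' = y + NN A) := by
  obtain ⟨z, hz⟩ := h
  refine ⟨U - NN A * (z / 2), ⟨⟨?_, c.1.2⟩, c.2⟩, ?_⟩
  · obtain ⟨x, hx⟩ := c.1.1
    exact ⟨x + z / 2, by linear_combination hx⟩
  · have h1 := Int.emod_two_eq_zero_or_one z
    have h2 := Int.mul_ediv_add_emod z 2
    rcases h1 with h1 | h1
    · left
      rw [h1, add_zero] at h2
      linear_combination hz - NN A * h2
    · right
      rw [h1] at h2
      linear_combination hz - NN A * h2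

/-- `w = h`, `x = -1`, `p = 2 w + 1` -/
theorem no_sp (F : A.Fl) (T : A.Tie) (hs : T.Single) (ht : T.t ≠ 1)
    (hwh : A.w = A.h) (hd : (A.w : ℤ) ≤ A.md) (hx2 : T.x = -1) (hp2 : A.p = 2 * A.w + 1) :
    False := by
  have hq := A.q_pos'
  have hp := A.p_pos'
  have hh := A.hh
  have hw := A.hw
  have hhep := T.hep
  have d : ST A T (-1) := ⟨F, hs, ht, by omega, by omega⟩
  have e1 : A.q * (A.w : ℤ) = A.q * A.h := by rw [hwh]
  have e2 : A.q * T.x = - A.q := by rw [hx2]; ring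
  have hp3 : (A.p : ℤ) = 2 * A.w + 1 := by omega
  have e3 : NN A = 2 * (A.q * A.w) + A.q := by unfold NN; rw [hp3]; ring
  have e4 : A.q * (A.w : ℤ) + 1 ≤ A.D := by
    have h1 := A.hfd
    have := mul_le_mul_of_nonneg_left hd hq.le
    unfold TAp.D; omega
  -- the row
  obtain ⟨s, hs1, hs2⟩ : ∃ s : ℤ, (2 * s = T.ep * A.w ∨ 2 * s = -(T.ep * (A.w + 1))) ∧
      (A.p : ℤ) ∣ 2 * s + T.ep * (A.w + 1) := by
    rcases Nat.even_or_odd A.w with ⟨c, hc⟩ | ⟨c, hc⟩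
    · have hc' : (A.w : ℤ) = c + c := by exact_mod_cast hc
      exact ⟨T.ep * c, Or.inl (by rw [hc']; ring), ⟨T.ep, by rw [hp3, hc']; ring⟩⟩
    · have hc' : (A.w : ℤ) = 2 * c + 1 := by exact_mod_cast hc
      exact ⟨-(T.ep * (c + 1)), Or.inr (by rw [hc']; ring), ⟨0, by rw [hc']; ring⟩⟩
  have hk : ¬ (A.p : ℤ) ∣ s := by
    apply nd_of_lt
    · rintro rfl
      rcases hhep with h | h <;> rw [h] at hs1 <;> omega
    · rw [abs_lt]
      rcases hhep with h | h <;> rw [h] at hs1 <;> omega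
  obtain ⟨j, U, cj, b0, b1, -, -⟩ := exK A hk
  -- `2 j = t` or `2 j = t + p`
  have hj : (A.p : ℤ) ∣ 2 * j - T.t := by
    obtain ⟨s', h1, h2⟩ := cj.1.2.1
    have h3 : s = s' := mul_left_cancel₀ hq.ne' h1
    rw [← h3] at h2
    have h4 := T.row
    rw [hx2] at h4
    have h5 : (A.p : ℤ) ∣ A.e * (2 * j - T.t) := by
      have := dvd_add (dvd_sub (h2.mul_left 2) h4) hs2
      have e : A.e * (2 * j - T.t) = 2 * (A.e * j - s) - (A.e * T.t - T.ep * (-1 - A.w)) +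
        (2 * s + T.ep * (A.w + 1)) := by ring
      rw [e]; exact this
    have h6 := (h5.mul_left A.e')
    have h7 := dvd_sub h6 (A.inv.mul_right (2 * j - T.t))
    have e : 2 * j - T.t = A.e' * (A.e * (2 * j - T.t)) - (A.e * A.e' - 1) * (2 * j - T.t) := by
      ring
    rw [e]; exact h7
  have hj2 : 2 * j = T.t ∨ 2 * j = T.t + A.p := by
    have j0 := cj.2.1
    have j1 := cj.2.2
    have t0 := T.t0
    have tp := T.tp
    obtain ⟨z, hz⟩ := hj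
    rcases lt_trichotomy z 0 with h | h | h
    · exfalso
      have : A.p * z ≤ A.p * (-1) := mul_le_mul_of_nonneg_left (by omega) hp.le
      omega
    · left; rw [h, mul_zero] at hz; omega
    · right
      have h1 : z < 2 := by
        by_contra hc
        have : (A.p : ℤ) * 2 ≤ A.p * z := mul_le_mul_of_nonneg_left (by omega) hp.le
        omega
      have : z = 1 := by omega
      rw [this, mul_one] at hz; omega
  have a1 : NN A ∣ A.a * (2 * j) - 2 * U := by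
    have := cj.1.1.mul_left 2
    rwa [show 2 * (A.a * j - U) = A.a * (2 * j) - 2 * U by ring] at this
  have a2 : NN A ∣ A.a * T.t - T.ep * (A.q * A.w + A.sg) := T.tie
  have a3 : NN A ∣ A.a * A.p - A.D := A.hd
  have sq : 2 * (A.q * s) = T.ep * (A.q * A.w) ∨ 2 * (A.q * s) = -(T.ep * (A.q * A.w + A.q)) := by
    rcases hs1 with h | h
    · left; linear_combination A.q * h
    · right; linear_combination A.q * h
  rcases hj2 with hj2 | hj2
  · -- `2 j = t`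
    have t1 : 2 * th A j = th A T.t := by rw [← hj2, th_mul]
    have a4 : NN A ∣ 2 * U - T.ep * (A.q * A.w + A.sg) := by
      rw [hj2] at a1
      have := dvd_sub a2 a1
      rwa [sub_sub_sub_cancel_left] at this
    obtain ⟨U', c, hU⟩ := half cj a4
    rcases T.hep with he | he <;> rcases A.hsg with hg | hg <;> rcases sq with hq1 | hq1 <;>
      rcases hU with hU | hU
    · exact c_ppseA0 d hg he c e1 e2 e3 e4 t1 hU hq1
    · exact c_ppseA1 d hg he c e1 e2 e3 e4 t1 hU hq1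
    · exact c_ppsoA0 d hg he c e1 e2 e3 e4 t1 hU hq1
    · exact c_ppsoA1 d hg he c e1 e2 e3 e4 t1 hU hq1
    · exact c_pmseA0 d hg he c e1 e2 e3 e4 t1 hU hq1
    · exact c_pmseA1 d hg he c e1 e2 e3 e4 t1 hU hq1
    · exact c_pmsoA0 d hg he c e1 e2 e3 e4 t1 hU hq1
    · exact c_pmsoA1 d hg he c e1 e2 e3 e4 t1 hU hq1
    · exact c_mpseA0 d hg he c e1 e2 e3 e4 t1 hU hq1
    · exact c_mpseA1 d hg he c e1 e2 e3 e4 t1 hU hq1
    · exact c_mpsoA0 d hg he c e1 e2 e3 e4 t1 hU hq1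
    · exact c_mpsoA1 d hg he c e1 e2 e3 e4 t1 hU hq1
    · exact c_mmseA0 d hg he c e1 e2 e3 e4 t1 hU hq1
    · exact c_mmseA1 d hg he c e1 e2 e3 e4 t1 hU hq1
    · exact c_mmsoA0 d hg he c e1 e2 e3 e4 t1 hU hq1
    · exact c_mmsoA1 d hg he c e1 e2 e3 e4 t1 hU hq1
  · -- `2 j = t + p`
    have t1 : 2 * th A j = th A T.t + A.D := by rw [← th_p A, ← th_add, ← hj2, th_mul]
    have a4 : NN A ∣ 2 * U - (T.ep * (A.q * A.w + A.sg) + A.D) := by
      rw [hj2] at a1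
      have := dvd_sub (dvd_add a2 a3) a1
      have e : 2 * U - (T.ep * (A.q * A.w + A.sg) + A.D) =
        A.a * T.t - T.ep * (A.q * A.w + A.sg) + (A.a * A.p - A.D) -
          (A.a * (T.t + A.p) - 2 * U) := by ring
      rw [e]; exact this
    obtain ⟨U', c, hU⟩ := half cj a4
    rcases T.hep with he | he <;> rcases A.hsg with hg | hg <;> rcases sq with hq1 | hq1 <;>
      rcases hU with hU | hU
    · exact c_ppseB0 d hg he c e1 e2 e3 e4 t1 hU hq1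
    · exact c_ppseB1 d hg he c e1 e2 e3 e4 t1 hU hq1
    · exact c_ppsoB0 d hg he c e1 e2 e3 e4 t1 hU hq1
    · exact c_ppsoB1 d hg he c e1 e2 e3 e4 t1 hU hq1
    · exact c_pmseB0 d hg he c e1 e2 e3 e4 t1 hU hq1
    · exact c_pmseB1 d hg he c e1 e2 e3 e4 t1 hU hq1
    · exact c_pmsoB0 d hg he c e1 e2 e3 e4 t1 hU hq1
    · exact c_pmsoB1 d hg he c e1 e2 e3 e4 t1 hU hq1
    · exact c_mpseB0 d hg he c e1 e2 e3 e4 t1 hU hq1
    · exact c_mpseB1 d hg he c e1 e2 e3 e4 t1 hU hq1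
    · exact c_mpsoB0 d hg he c e1 e2 e3 e4 t1 hU hq1
    · exact c_mpsoB1 d hg he c e1 e2 e3 e4 t1 hU hq1
    · exact c_mmseB0 d hg he c e1 e2 e3 e4 t1 hU hq1
    · exact c_mmseB1 d hg he c e1 e2 e3 e4 t1 hU hq1
    · exact c_mmsoB0 d hg he c e1 e2 e3 e4 t1 hU hq1
    · exact c_mmsoB1 d hg he c e1 e2 e3 e4 t1 hU hq1

/-- **single ties with `w ≤ h`, `w ≤ md`, `h - |x| < w` do not exist** -/
theorem no_le (F : A.Fl) (T : A.Tie) (hs : T.Single) (ht : T.t ≠ 1) (hx0 : T.x ≠ 0)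
    (hx1 : |T.x| < A.h) (hwh : A.w ≤ A.h) (hd : (A.w : ℤ) ≤ A.md)
    (hx : (A.h : ℤ) < A.w + |T.x|) : False := by
  rcases lt_or_eq_of_le hwh with h | h
  · exact no_lt F T hs ht hx0 hx1 h hd hx
  · by_cases hx2 : T.x = -1
    · have h2 := A.w2
      rcases lt_or_ge A.p (2 * A.w + 2) with h3 | h3
      · exact no_sp F T hs ht h hd hx2 (by omega)
      · exact no_eq' F T hs ht h hd hx2 h3
    · exact no_eq F T hs ht hx0 hx1 h hd hx2

end Pool.Agent.H81.LU
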