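import Pool.Agent.H81.LT.Base

/-!
# Single ties with `w ≤ h`: interface
-/

namespace Pool.Agent.H81.LU

open Pool.Agent.H78.RT
open Pool.Agent.H78.Tie
open Pool.Agent.H78.Tie.TAp
open Pool.Agent.H78.SV
open Pool.Agent.H81.LT (res fnil fcons exK)
open Pool.Agent.H81.AP (LF dot dot_nil dot_nil' dot_cons AllNn AllNe)

variable {A : TAp} {T : A.Tie} {j r U S a V b : ℤ}

/-- the classes of the trees -/
def JK (F : LF) : List LR := [⟨[0, 0, 0, 0, 0, 0, 0, 0, 0, 0, 1], [0, 0, 0, 0, 0, 0, 0, 0, 0, 1],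
  [0, 0, 0, 0, 0, 0, 0, 0, 1]⟩, ⟨[0, 0, 0, 0, 0, 0, 0, 0, 0, 0, 0, 0, 1], F,
  [0, 0, 0, 0, 0, 0, 0, 0, 0, 0, 0, 1]⟩]

theorem goK {sx : ℤ} (d : ST A T sx) {sp ep : Bool} (hsg : A.sg = sgv sp)
    (hep : T.ep = sgv ep) {k : ℤ} (cj : IsC A j U S a)
    (cr : IsC A r V (A.q * k) b) {K : LF}
    (hF : dot K (1 :: env A T [a, S, U, b, V]) = A.q * k) {g la : List LF}
    (hg : AllNn (env A T [a, S, U, b, V]) g)
    (hla : ∀ F ∈ la, dot F (res (sgv ep * sgv sp) A.D a b) = 0)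
    {t : Pool.Agent.H78.RT.T} (h : (mkS sp ep sx (JK K) g [] la).chk t = true) : False := by
  refine d.run hsg hep (J := JK K) (g := g) (ne := []) (la := la) (r := [a, S, U, b, V]) ?_ hg
    trivial ?_ h
  · refine ⟨⟨j, ?_⟩, ⟨r, ?_⟩, trivial⟩
    · unfold LR.Cl env
      simp only [dot_cons, dot_nil]
      convert cj using 1 <;> ring
    · unfold LR.Cl
      rw [hF]
      unfold env
      simp only [dot_cons, dot_nil]
      convert cr using 1 <;> ring
  · intro F hF
    have h1 := d.q_th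
    rw [hsg, hep] at h1
    obtain ⟨s, hs, -⟩ := cj.1.2.1
    have h2 : List.Forall₂ (fun a b => (A.q : ℤ) ∣ a - b) (1 :: env A T [a, S, U, b, V])
        (res (sgv ep * sgv sp) A.D a b) := by
      unfold env res
      refine .cons (by simp) (.cons (by rw [sub_zero]; exact dvd_mul_left _ _)
        (.cons (by simp) (.cons (by simp) (.cons (by simp) (.cons (by simp) (.cons h1
        (.cons (by simp) (.cons (by simp) (.cons ⟨s, by rw [hs]; ring⟩ (.cons cj.1.mod
        (.cons (by simp) (.cons cr.1.mod .nil))))))))))))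
    have := Pool.Agent.H81.LT.dot_dvd (F := F) h2
    rwa [hla F hF, sub_zero] at this

/-- one class -/
def JS : List LR := [⟨[0, 0, 0, 0, 0, 0, 0, 0, 0, 0, 1], [0, 0, 0, 0, 0, 0, 0, 0, 0, 1],
  [0, 0, 0, 0, 0, 0, 0, 0, 1]⟩]

/-- residues of the environment -/
def resS (es D a : ℤ) : List ℤ := [1, 0, 0, 0, D, 0, es, 0, a, 0, a]

theorem goS {sx : ℤ} (d : ST A T sx) {sp ep : Bool} (hsg : A.sg = sgv sp)
    (hep : T.ep = sgv ep) (cj : IsC A j U S a) {g la : List LF}
    (hg : AllNn (env A T [a, S, U]) g)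
    (hla : ∀ F ∈ la, dot F (resS (sgv ep * sgv sp) A.D a) = 0)
    {t : Pool.Agent.H78.RT.T} (h : (mkS sp ep sx JS g [] la).chk t = true) : False := by
  refine d.run hsg hep (J := JS) (g := g) (ne := []) (la := la) (r := [a, S, U]) ?_ hg
    trivial ?_ h
  · refine ⟨⟨j, ?_⟩, trivial⟩
    unfold LR.Cl env
    simp only [dot_cons, dot_nil]
    convert cj using 1 <;> ring
  · intro F hF
    have h1 := d.q_th
    rw [hsg, hep] at h1
    obtain ⟨s, hs, -⟩ := cj.1.2.1
    have h2 : List.Forall₂ (fun a b => (A.q : ℤ) ∣ a - b) (1 :: env A T [a, S, U])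
        (resS (sgv ep * sgv sp) A.D a) := by
      unfold env resS
      refine .cons (by simp) (.cons (by rw [sub_zero]; exact dvd_mul_left _ _)
        (.cons (by simp) (.cons (by simp) (.cons (by simp) (.cons (by simp) (.cons h1
        (.cons (by simp) (.cons (by simp) (.cons ⟨s, by rw [hs]; ring⟩ (.cons cj.1.mod
        .nil))))))))))
    have := Pool.Agent.H81.LT.dot_dvd (F := F) h2
    rwa [hla F hF, sub_zero] at this

/-- inequalities on the two classes; `k` is the row of the second one -/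
structure Pt (A : TAp) (k j r U S a V b : ℤ) : Prop where
  cj : IsC A j U S a
  cr : IsC A r V (A.q * k) b
  hd : A.q * (A.w : ℤ) ≤ A.D
  a0 : 1 ≤ a
  a1 : a + 1 ≤ A.D
  b0 : 1 ≤ b
  b1 : b + 1 ≤ A.D
  V1 : 2 * V ≤ NN A
  V0 : -NN A ≤ 2 * V

end Pool.Agent.H81.LU
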