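import Pool.Agent.H81.LU.Base
import Pool.Agent.H81.LU.mmm1B
import Pool.Agent.H81.LU.mmm2B
import Pool.Agent.H81.LU.mmp0B
import Pool.Agent.H81.LU.mmp3B
import Pool.Agent.H81.LU.mpm1B
import Pool.Agent.H81.LU.mpm2B
import Pool.Agent.H81.LU.mpp0B
import Pool.Agent.H81.LU.mpp3B
import Pool.Agent.H81.LU.pmm1B
import Pool.Agent.H81.LU.pmm2B
import Pool.Agent.H81.LU.pmp0B
import Pool.Agent.H81.LU.pmp3B
import Pool.Agent.H81.LU.ppm1B
import Pool.Agent.H81.LU.ppm2B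
import Pool.Agent.H81.LU.ppp0B
import Pool.Agent.H81.LU.ppp3B

/-!
# `w < h`
-/

namespace Pool.Agent.H81.LU

open Pool.Agent.H78.RT
open Pool.Agent.H78.Tie
open Pool.Agent.H78.Tie.TAp
open Pool.Agent.H78.SV
open Pool.Agent.H81.LT (res fnil fcons exK)
open Pool.Agent.H81.AP (LF dot dot_nil dot_nil' dot_cons AllNn AllNe)

variable {A : TAp} {T : A.Tie} {j r U S a V b : ℤ}

theorem c_mmm1B (d : ST A T (-1)) (hsg : A.sg = -1) (hep : T.ep = -1)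
    (h : Pt A ((A.h : ℤ) - A.w) j r U S a V b) (e1 : A.q * (A.w : ℤ) + A.q ≤ A.q * A.h) (e2 : A.q * (A.h : ℤ) + A.q * T.x + A.q ≤ A.q * A.w)
    (c1 : -(A.q * A.w : ℤ) - A.sg + 2 ≤ U) (c2 : (A.q * A.w : ℤ) - A.q * T.x - A.q * A.h ≤ S)
    (c3 : U + S ≤ 0) : False := by
  refine goK d (sp := false) (ep := false) hsg hep h.cj h.cr (K := [0, 0, -1, 1])
    ?_ (g := mmm1B_g) (la := mmm1B_q) ?_ ?_ mmm1B_k
  · unfold env
    simp only [dot_cons, dot_nil]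
    ring
  · obtain ⟨-, -, k2, k3, k4, k5, k6, k7, k8⟩ := h
    have f := d.facts
    rw [hsg] at *
    unfold mmm1B_g env
    simp only [AllNn, dot_cons, dot_nil]
    refine ⟨?_, ?_, ?_, ?_, ?_, ?_, ?_, ?_, ?_, ?_, ?_, ?_, trivial⟩ <;> linarith
  · unfold mmm1B_q
    repeat' first | exact fnil | refine fcons ?_ ?_
    all_goals (simp only [res, sgv, dot_cons, dot_nil]; ring)

theorem c_mmm2B (d : ST A T (-1)) (hsg : A.sg = -1) (hep : T.ep = -1)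
    (h : Pt A ((A.h : ℤ) - A.w) j r U S a V b) (e1 : A.q * (A.w : ℤ) + A.q ≤ A.q * A.h) (e2 : A.q * (A.h : ℤ) + A.q * T.x + A.q ≤ A.q * A.w)
    (c1 : 2 ≤ U) (c2 : -(A.q * T.x) ≤ S)
    (c3 : U + S ≤ A.q * A.h) : False := by
  refine goK d (sp := false) (ep := false) hsg hep h.cj h.cr (K := [0, 0, -1, 1])
    ?_ (g := mmm2B_g) (la := mmm2B_q) ?_ ?_ mmm2B_k
  · unfold env
    simp only [dot_cons, dot_nil]
    ring
  · obtain ⟨-, -, k2, k3, k4, k5, k6, k7, k8⟩ := h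
    have f := d.facts
    rw [hsg] at *
    unfold mmm2B_g env
    simp only [AllNn, dot_cons, dot_nil]
    refine ⟨?_, ?_, ?_, ?_, ?_, ?_, ?_, ?_, ?_, ?_, ?_, ?_, trivial⟩ <;> linarith
  · unfold mmm2B_q
    repeat' first | exact fnil | refine fcons ?_ ?_
    all_goals (simp only [res, sgv, dot_cons, dot_nil]; ring)

theorem c_mmp0B (d : ST A T (1)) (hsg : A.sg = -1) (hep : T.ep = -1)
    (h : Pt A ((A.h : ℤ) - A.w) j r U S a V b) (e1 : A.q * (A.w : ℤ) + A.q ≤ A.q * A.h) (e2 : A.q * (A.h : ℤ) - A.q * T.x + A.q ≤ A.q * A.w)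
    (c1 : 2 ≤ U) (c2 : -(A.q * A.h : ℤ) ≤ S)
    (c3 : U + S ≤ -(A.q * T.x) - A.sg) : False := by
  refine goK d (sp := false) (ep := false) hsg hep h.cj h.cr (K := [0, 0, -1, 1])
    ?_ (g := mmp0B_g) (la := mmp0B_q) ?_ ?_ mmp0B_k
  · unfold env
    simp only [dot_cons, dot_nil]
    ring
  · obtain ⟨-, -, k2, k3, k4, k5, k6, k7, k8⟩ := h
    have f := d.facts
    rw [hsg] at *
    unfold mmp0B_g env
    simp only [AllNn, dot_cons, dot_nil]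
    refine ⟨?_, ?_, ?_, ?_, ?_, ?_, ?_, ?_, ?_, ?_, ?_, ?_, trivial⟩ <;> linarith
  · unfold mmp0B_q
    repeat' first | exact fnil | refine fcons ?_ ?_
    all_goals (simp only [res, sgv, dot_cons, dot_nil]; ring)

theorem c_mmp3B (d : ST A T (1)) (hsg : A.sg = -1) (hep : T.ep = -1)
    (h : Pt A ((A.h : ℤ) - A.w) j r U S a V b) (e1 : A.q * (A.w : ℤ) + A.q ≤ A.q * A.h) (e2 : A.q * (A.h : ℤ) - A.q * T.x + A.q ≤ A.q * A.w)
    (c1 : -(A.q * A.w : ℤ) - A.sg + 2 ≤ U) (c2 : (A.q * A.w : ℤ) ≤ S)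
    (c3 : U + S ≤ A.q * A.h - A.q * T.x - A.sg) : False := by
  refine goK d (sp := false) (ep := false) hsg hep h.cj h.cr (K := [0, 0, -1, 1])
    ?_ (g := mmp3B_g) (la := mmp3B_q) ?_ ?_ mmp3B_k
  · unfold env
    simp only [dot_cons, dot_nil]
    ring
  · obtain ⟨-, -, k2, k3, k4, k5, k6, k7, k8⟩ := h
    have f := d.facts
    rw [hsg] at *
    unfold mmp3B_g env
    simp only [AllNn, dot_cons, dot_nil]
    refine ⟨?_, ?_, ?_, ?_, ?_, ?_, ?_, ?_, ?_, ?_, ?_, ?_, trivial⟩ <;> linarith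
  · unfold mmp3B_q
    repeat' first | exact fnil | refine fcons ?_ ?_
    all_goals (simp only [res, sgv, dot_cons, dot_nil]; ring)

theorem c_mpm1B (d : ST A T (-1)) (hsg : A.sg = 1) (hep : T.ep = -1)
    (h : Pt A ((A.h : ℤ) - A.w) j r U S a V b) (e1 : A.q * (A.w : ℤ) + A.q ≤ A.q * A.h) (e2 : A.q * (A.h : ℤ) + A.q * T.x + A.q ≤ A.q * A.w)
    (c1 : -(A.q * A.w : ℤ) - A.sg + 2 ≤ U) (c2 : (A.q * A.w : ℤ) - A.q * T.x - A.q * A.h ≤ S)
    (c3 : U + S ≤ 0) : False := by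
  refine goK d (sp := true) (ep := false) hsg hep h.cj h.cr (K := [0, 0, -1, 1])
    ?_ (g := mpm1B_g) (la := mpm1B_q) ?_ ?_ mpm1B_k
  · unfold env
    simp only [dot_cons, dot_nil]
    ring
  · obtain ⟨-, -, k2, k3, k4, k5, k6, k7, k8⟩ := h
    have f := d.facts
    rw [hsg] at *
    unfold mpm1B_g env
    simp only [AllNn, dot_cons, dot_nil]
    refine ⟨?_, ?_, ?_, ?_, ?_, ?_, ?_, ?_, ?_, ?_, ?_, ?_, trivial⟩ <;> linarith
  · unfold mpm1B_q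
    repeat' first | exact fnil | refine fcons ?_ ?_
    all_goals (simp only [res, sgv, dot_cons, dot_nil]; ring)

theorem c_mpm2B (d : ST A T (-1)) (hsg : A.sg = 1) (hep : T.ep = -1)
    (h : Pt A ((A.h : ℤ) - A.w) j r U S a V b) (e1 : A.q * (A.w : ℤ) + A.q ≤ A.q * A.h) (e2 : A.q * (A.h : ℤ) + A.q * T.x + A.q ≤ A.q * A.w)
    (c1 : 2 ≤ U) (c2 : -(A.q * T.x) ≤ S)
    (c3 : U + S ≤ A.q * A.h) : False := by
  refine goK d (sp := true) (ep := false) hsg hep h.cj h.cr (K := [0, 0, -1, 1])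
    ?_ (g := mpm2B_g) (la := mpm2B_q) ?_ ?_ mpm2B_k
  · unfold env
    simp only [dot_cons, dot_nil]
    ring
  · obtain ⟨-, -, k2, k3, k4, k5, k6, k7, k8⟩ := h
    have f := d.facts
    rw [hsg] at *
    unfold mpm2B_g env
    simp only [AllNn, dot_cons, dot_nil]
    refine ⟨?_, ?_, ?_, ?_, ?_, ?_, ?_, ?_, ?_, ?_, ?_, ?_, trivial⟩ <;> linarith
  · unfold mpm2B_q
    repeat' first | exact fnil | refine fcons ?_ ?_
    all_goals (simp only [res, sgv, dot_cons, dot_nil]; ring)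

theorem c_mpp0B (d : ST A T (1)) (hsg : A.sg = 1) (hep : T.ep = -1)
    (h : Pt A ((A.h : ℤ) - A.w) j r U S a V b) (e1 : A.q * (A.w : ℤ) + A.q ≤ A.q * A.h) (e2 : A.q * (A.h : ℤ) - A.q * T.x + A.q ≤ A.q * A.w)
    (c1 : 2 ≤ U) (c2 : -(A.q * A.h : ℤ) ≤ S)
    (c3 : U + S ≤ -(A.q * T.x) - A.sg) : False := by
  refine goK d (sp := true) (ep := false) hsg hep h.cj h.cr (K := [0, 0, -1, 1])
    ?_ (g := mpp0B_g) (la := mpp0B_q) ?_ ?_ mpp0B_k
  · unfold env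
    simp only [dot_cons, dot_nil]
    ring
  · obtain ⟨-, -, k2, k3, k4, k5, k6, k7, k8⟩ := h
    have f := d.facts
    rw [hsg] at *
    unfold mpp0B_g env
    simp only [AllNn, dot_cons, dot_nil]
    refine ⟨?_, ?_, ?_, ?_, ?_, ?_, ?_, ?_, ?_, ?_, ?_, ?_, trivial⟩ <;> linarith
  · unfold mpp0B_q
    repeat' first | exact fnil | refine fcons ?_ ?_
    all_goals (simp only [res, sgv, dot_cons, dot_nil]; ring)

theorem c_mpp3B (d : ST A T (1)) (hsg : A.sg = 1) (hep : T.ep = -1)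
    (h : Pt A ((A.h : ℤ) - A.w) j r U S a V b) (e1 : A.q * (A.w : ℤ) + A.q ≤ A.q * A.h) (e2 : A.q * (A.h : ℤ) - A.q * T.x + A.q ≤ A.q * A.w)
    (c1 : -(A.q * A.w : ℤ) - A.sg + 2 ≤ U) (c2 : (A.q * A.w : ℤ) ≤ S)
    (c3 : U + S ≤ A.q * A.h - A.q * T.x - A.sg) : False := by
  refine goK d (sp := true) (ep := false) hsg hep h.cj h.cr (K := [0, 0, -1, 1])
    ?_ (g := mpp3B_g) (la := mpp3B_q) ?_ ?_ mpp3B_k
  · unfold env
    simp only [dot_cons, dot_nil]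
    ring
  · obtain ⟨-, -, k2, k3, k4, k5, k6, k7, k8⟩ := h
    have f := d.facts
    rw [hsg] at *
    unfold mpp3B_g env
    simp only [AllNn, dot_cons, dot_nil]
    refine ⟨?_, ?_, ?_, ?_, ?_, ?_, ?_, ?_, ?_, ?_, ?_, ?_, trivial⟩ <;> linarith
  · unfold mpp3B_q
    repeat' first | exact fnil | refine fcons ?_ ?_
    all_goals (simp only [res, sgv, dot_cons, dot_nil]; ring)

theorem c_pmm1B (d : ST A T (-1)) (hsg : A.sg = -1) (hep : T.ep = 1)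
    (h : Pt A ((A.h : ℤ) - A.w) j r U S a V b) (e1 : A.q * (A.w : ℤ) + A.q ≤ A.q * A.h) (e2 : A.q * (A.h : ℤ) + A.q * T.x + A.q ≤ A.q * A.w)
    (c1 : 2 ≤ U) (c2 : -(A.q * A.h : ℤ) ≤ S)
    (c3 : U + S ≤ A.q * T.x + A.sg) : False := by
  refine goK d (sp := false) (ep := true) hsg hep h.cj h.cr (K := [0, 0, -1, 1])
    ?_ (g := pmm1B_g) (la := pmm1B_q) ?_ ?_ pmm1B_k
  · unfold env
    simp only [dot_cons, dot_nil]
    ring
  · obtain ⟨-, -, k2, k3, k4, k5, k6, k7, k8⟩ := h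
    have f := d.facts
    rw [hsg] at *
    unfold pmm1B_g env
    simp only [AllNn, dot_cons, dot_nil]
    refine ⟨?_, ?_, ?_, ?_, ?_, ?_, ?_, ?_, ?_, ?_, ?_, ?_, trivial⟩ <;> linarith
  · unfold pmm1B_q
    repeat' first | exact fnil | refine fcons ?_ ?_
    all_goals (simp only [res, sgv, dot_cons, dot_nil]; ring)

theorem c_pmm2B (d : ST A T (-1)) (hsg : A.sg = -1) (hep : T.ep = 1)
    (h : Pt A ((A.h : ℤ) - A.w) j r U S a V b) (e1 : A.q * (A.w : ℤ) + A.q ≤ A.q * A.h) (e2 : A.q * (A.h : ℤ) + A.q * T.x + A.q ≤ A.q * A.w)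
    (c1 : (A.q * A.w : ℤ) + A.sg + 2 ≤ U) (c2 : -(A.q * A.w : ℤ) ≤ S)
    (c3 : U + S ≤ A.q * A.h + A.q * T.x + A.sg) : False := by
  refine goK d (sp := false) (ep := true) hsg hep h.cj h.cr (K := [0, 0, -1, 1])
    ?_ (g := pmm2B_g) (la := pmm2B_q) ?_ ?_ pmm2B_k
  · unfold env
    simp only [dot_cons, dot_nil]
    ring
  · obtain ⟨-, -, k2, k3, k4, k5, k6, k7, k8⟩ := h
    have f := d.facts
    rw [hsg] at *
    unfold pmm2B_g env
    simp only [AllNn, dot_cons, dot_nil]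
    refine ⟨?_, ?_, ?_, ?_, ?_, ?_, ?_, ?_, ?_, ?_, ?_, ?_, trivial⟩ <;> linarith
  · unfold pmm2B_q
    repeat' first | exact fnil | refine fcons ?_ ?_
    all_goals (simp only [res, sgv, dot_cons, dot_nil]; ring)

theorem c_pmp0B (d : ST A T (1)) (hsg : A.sg = -1) (hep : T.ep = 1)
    (h : Pt A ((A.h : ℤ) - A.w) j r U S a V b) (e1 : A.q * (A.w : ℤ) + A.q ≤ A.q * A.h) (e2 : A.q * (A.h : ℤ) - A.q * T.x + A.q ≤ A.q * A.w)
    (c1 : (A.q * A.w : ℤ) + A.sg + 2 ≤ U) (c2 : A.q * T.x - A.q * A.w - A.q * A.h ≤ S)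
    (c3 : U + S ≤ 0) : False := by
  refine goK d (sp := false) (ep := true) hsg hep h.cj h.cr (K := [0, 0, -1, 1])
    ?_ (g := pmp0B_g) (la := pmp0B_q) ?_ ?_ pmp0B_k
  · unfold env
    simp only [dot_cons, dot_nil]
    ring
  · obtain ⟨-, -, k2, k3, k4, k5, k6, k7, k8⟩ := h
    have f := d.facts
    rw [hsg] at *
    unfold pmp0B_g env
    simp only [AllNn, dot_cons, dot_nil]
    refine ⟨?_, ?_, ?_, ?_, ?_, ?_, ?_, ?_, ?_, ?_, ?_, ?_, trivial⟩ <;> linarith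
  · unfold pmp0B_q
    repeat' first | exact fnil | refine fcons ?_ ?_
    all_goals (simp only [res, sgv, dot_cons, dot_nil]; ring)

theorem c_pmp3B (d : ST A T (1)) (hsg : A.sg = -1) (hep : T.ep = 1)
    (h : Pt A ((A.h : ℤ) - A.w) j r U S a V b) (e1 : A.q * (A.w : ℤ) + A.q ≤ A.q * A.h) (e2 : A.q * (A.h : ℤ) - A.q * T.x + A.q ≤ A.q * A.w)
    (c1 : 2 ≤ U) (c2 : A.q * T.x ≤ S)
    (c3 : U + S ≤ A.q * A.h) : False := by
  refine goK d (sp := false) (ep := true) hsg hep h.cj h.cr (K := [0, 0, -1, 1])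
    ?_ (g := pmp3B_g) (la := pmp3B_q) ?_ ?_ pmp3B_k
  · unfold env
    simp only [dot_cons, dot_nil]
    ring
  · obtain ⟨-, -, k2, k3, k4, k5, k6, k7, k8⟩ := h
    have f := d.facts
    rw [hsg] at *
    unfold pmp3B_g env
    simp only [AllNn, dot_cons, dot_nil]
    refine ⟨?_, ?_, ?_, ?_, ?_, ?_, ?_, ?_, ?_, ?_, ?_, ?_, trivial⟩ <;> linarith
  · unfold pmp3B_q
    repeat' first | exact fnil | refine fcons ?_ ?_
    all_goals (simp only [res, sgv, dot_cons, dot_nil]; ring)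

theorem c_ppm1B (d : ST A T (-1)) (hsg : A.sg = 1) (hep : T.ep = 1)
    (h : Pt A ((A.h : ℤ) - A.w) j r U S a V b) (e1 : A.q * (A.w : ℤ) + A.q ≤ A.q * A.h) (e2 : A.q * (A.h : ℤ) + A.q * T.x + A.q ≤ A.q * A.w)
    (c1 : 2 ≤ U) (c2 : -(A.q * A.h : ℤ) ≤ S)
    (c3 : U + S ≤ A.q * T.x + A.sg) : False := by
  refine goK d (sp := true) (ep := true) hsg hep h.cj h.cr (K := [0, 0, -1, 1])
    ?_ (g := ppm1B_g) (la := ppm1B_q) ?_ ?_ ppm1B_k
  · unfold env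
    simp only [dot_cons, dot_nil]
    ring
  · obtain ⟨-, -, k2, k3, k4, k5, k6, k7, k8⟩ := h
    have f := d.facts
    rw [hsg] at *
    unfold ppm1B_g env
    simp only [AllNn, dot_cons, dot_nil]
    refine ⟨?_, ?_, ?_, ?_, ?_, ?_, ?_, ?_, ?_, ?_, ?_, ?_, trivial⟩ <;> linarith
  · unfold ppm1B_q
    repeat' first | exact fnil | refine fcons ?_ ?_
    all_goals (simp only [res, sgv, dot_cons, dot_nil]; ring)

theorem c_ppm2B (d : ST A T (-1)) (hsg : A.sg = 1) (hep : T.ep = 1)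
    (h : Pt A ((A.h : ℤ) - A.w) j r U S a V b) (e1 : A.q * (A.w : ℤ) + A.q ≤ A.q * A.h) (e2 : A.q * (A.h : ℤ) + A.q * T.x + A.q ≤ A.q * A.w)
    (c1 : (A.q * A.w : ℤ) + A.sg + 2 ≤ U) (c2 : -(A.q * A.w : ℤ) ≤ S)
    (c3 : U + S ≤ A.q * A.h + A.q * T.x + A.sg) : False := by
  refine goK d (sp := true) (ep := true) hsg hep h.cj h.cr (K := [0, 0, -1, 1])
    ?_ (g := ppm2B_g) (la := ppm2B_q) ?_ ?_ ppm2B_k
  · unfold env
    simp only [dot_cons, dot_nil]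
    ring
  · obtain ⟨-, -, k2, k3, k4, k5, k6, k7, k8⟩ := h
    have f := d.facts
    rw [hsg] at *
    unfold ppm2B_g env
    simp only [AllNn, dot_cons, dot_nil]
    refine ⟨?_, ?_, ?_, ?_, ?_, ?_, ?_, ?_, ?_, ?_, ?_, ?_, trivial⟩ <;> linarith
  · unfold ppm2B_q
    repeat' first | exact fnil | refine fcons ?_ ?_
    all_goals (simp only [res, sgv, dot_cons, dot_nil]; ring)

theorem c_ppp0B (d : ST A T (1)) (hsg : A.sg = 1) (hep : T.ep = 1)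
    (h : Pt A ((A.h : ℤ) - A.w) j r U S a V b) (e1 : A.q * (A.w : ℤ) + A.q ≤ A.q * A.h) (e2 : A.q * (A.h : ℤ) - A.q * T.x + A.q ≤ A.q * A.w)
    (c1 : (A.q * A.w : ℤ) + A.sg + 2 ≤ U) (c2 : A.q * T.x - A.q * A.w - A.q * A.h ≤ S)
    (c3 : U + S ≤ 0) : False := by
  refine goK d (sp := true) (ep := true) hsg hep h.cj h.cr (K := [0, 0, -1, 1])
    ?_ (g := ppp0B_g) (la := ppp0B_q) ?_ ?_ ppp0B_k
  · unfold env
    simp only [dot_cons, dot_nil]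
    ring
  · obtain ⟨-, -, k2, k3, k4, k5, k6, k7, k8⟩ := h
    have f := d.facts
    rw [hsg] at *
    unfold ppp0B_g env
    simp only [AllNn, dot_cons, dot_nil]
    refine ⟨?_, ?_, ?_, ?_, ?_, ?_, ?_, ?_, ?_, ?_, ?_, ?_, trivial⟩ <;> linarith
  · unfold ppp0B_q
    repeat' first | exact fnil | refine fcons ?_ ?_
    all_goals (simp only [res, sgv, dot_cons, dot_nil]; ring)

theorem c_ppp3B (d : ST A T (1)) (hsg : A.sg = 1) (hep : T.ep = 1)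
    (h : Pt A ((A.h : ℤ) - A.w) j r U S a V b) (e1 : A.q * (A.w : ℤ) + A.q ≤ A.q * A.h) (e2 : A.q * (A.h : ℤ) - A.q * T.x + A.q ≤ A.q * A.w)
    (c1 : 2 ≤ U) (c2 : A.q * T.x ≤ S)
    (c3 : U + S ≤ A.q * A.h) : False := by
  refine goK d (sp := true) (ep := true) hsg hep h.cj h.cr (K := [0, 0, -1, 1])
    ?_ (g := ppp3B_g) (la := ppp3B_q) ?_ ?_ ppp3B_k
  · unfold env
    simp only [dot_cons, dot_nil]
    ring
  · obtain ⟨-, -, k2, k3, k4, k5, k6, k7, k8⟩ := h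
    have f := d.facts
    rw [hsg] at *
    unfold ppp3B_g env
    simp only [AllNn, dot_cons, dot_nil]
    refine ⟨?_, ?_, ?_, ?_, ?_, ?_, ?_, ?_, ?_, ?_, ?_, ?_, trivial⟩ <;> linarith
  · unfold ppp3B_q
    repeat' first | exact fnil | refine fcons ?_ ?_
    all_goals (simp only [res, sgv, dot_cons, dot_nil]; ring)

end Pool.Agent.H81.LU
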